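import Pool.Agent.T2h22.TB.Stm

/-! Project TB: task BA. -/

set_option autoImplicit false

open Finset

namespace Pool.Agent.T2h22.TB

theorem t_BA : T_BA := by
  classical
  intro hVA hCO h p hh hp S n hn
  obtain ⟨hv, -⟩ := hVA h p hp S
  set q : ℕ := p ^ h with hq
  have hq2 : 2 ≤ q := by
    calc 2 ≤ p := hp
      _ = p ^ 1 := (pow_one p).symm
      _ ≤ p ^ h := Nat.pow_le_pow_right (by omega) hh
  set y : ℕ := n / (2 * h) with hy
  have hy1 : 1 ≤ y := (Nat.one_le_div_iff (by omega)).2 hn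
  set j : ℕ := Nat.log q y with hj
  have hj1 : q ^ j ≤ y := Nat.pow_log_le_self q (by omega)
  have hj2 : y < q ^ (j + 1) := Nat.lt_pow_succ_log_self (by omega) y
  have hn1 : 2 * h * q ^ j ≤ n := by
    calc 2 * h * q ^ j ≤ 2 * h * y := Nat.mul_le_mul_left _ hj1
      _ ≤ n := Nat.mul_div_le n (2 * h)
  have hn2 : n < 2 * h * q ^ (j + 1) := by
    have h1 : y + 1 ≤ q ^ (j + 1) := hj2
    calc n < 2 * h * (y + 1) := by
          have := Nat.lt_mul_div_succ n (by omega : 0 < 2 * h)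
          rwa [← hy] at this
      _ ≤ _ := Nat.mul_le_mul_left _ h1
  obtain ⟨m, hm, hmod⟩ := hCO h p hp S j n
  set s : ℕ := ∑ i : Fin h, S.v j i (m i) with hs
  have hqj : 0 < q ^ j := pow_pos (by omega) j
  have hs1 : s ≤ h * q ^ j := by
    calc s ≤ ∑ i : Fin h, q ^ j := Finset.sum_le_sum fun i _ => (hv j i (m i)).le
      _ = h * q ^ j := by rw [Finset.sum_const, Finset.card_univ, Fintype.card_fin, smul_eq_mul]
  have hsn : s ≤ n := by nlinarith
  obtain ⟨M, hM⟩ : q ^ j ∣ n - s := (Nat.modEq_iff_dvd' hsn).1 hmod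
  have hM1 : h ≤ M := by
    by_contra hc
    push Not at hc
    have h1 : q ^ j * M < q ^ j * h := Nat.mul_lt_mul_of_pos_left hc hqj
    have h2 : 2 * h * q ^ j = h * q ^ j + h * q ^ j := by ring
    have h3 : q ^ j * h = h * q ^ j := Nat.mul_comm _ _
    omega
  have hM2 : M < 2 * h * q := by
    by_contra hc
    push Not at hc
    have h1 : q ^ j * (2 * h * q) ≤ q ^ j * M := Nat.mul_le_mul_left _ hc
    have h2 : 2 * h * q ^ (j + 1) = q ^ j * (2 * h * q) := by rw [pow_succ]; ring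
    omega
  set t : Fin h → ℕ := fun i => 1 + if i = ⟨0, hh⟩ then M - h else 0 with ht
  have htsum : ∑ i, t i = M := by
    rw [ht, Finset.sum_add_distrib, Finset.sum_ite_eq', if_pos (Finset.mem_univ _), Finset.sum_const,
      Finset.card_univ, Fintype.card_fin, smul_eq_mul]
    omega
  refine ⟨fun i => S.v j i (m i) + q ^ j * t i, fun i => ⟨j, i, m i, t i, i.2, hm i, ?_, ?_, rfl⟩, ?_⟩
  · exact Nat.le_add_right _ _
  · show (1 + if i = ⟨0, hh⟩ then M - h else 0) < 2 * h * q
    split_ifs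
    · omega
    · nlinarith
  · rw [Finset.sum_add_distrib, ← Finset.mul_sum, htsum, ← hs, ← hM]
    omega

end Pool.Agent.T2h22.TB
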