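import Pool.Agent.T2h22.TB.Stm

set_option autoImplicit false

open Finset

namespace Pool.Agent.T2h22.TB

namespace CHa

lemma key (q j : ℕ) (hq : 0 < q) (A R T n : ℕ) (hRT : (q : ℤ) ∣ (T : ℤ) - R) :
    (A + q ^ j * R ≡ n [MOD q ^ (j + 1)]) ↔
      (A ≡ n [MOD q ^ j]) ∧ (q : ℤ) ∣ (T : ℤ) + ((A : ℤ) - n) / (q : ℤ) ^ j := by
  have hqj : ((q : ℤ) ^ j) ≠ 0 := by positivity
  rw [Nat.modEq_iff_dvd, Nat.modEq_iff_dvd]
  push_cast
  constructor
  · intro H
    have h1 : (q : ℤ) ^ j ∣ (n : ℤ) - A := by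
      have h2 : (q : ℤ) ^ j ∣ (n : ℤ) - (A + q ^ j * R) :=
        dvd_trans (pow_dvd_pow _ (Nat.le_succ j)) H
      have h3 : (n : ℤ) - A = ((n : ℤ) - (A + q ^ j * R)) + q ^ j * R := by ring
      rw [h3]
      exact dvd_add h2 (dvd_mul_right _ _)
    refine ⟨h1, ?_⟩
    have h4 : (q : ℤ) ^ j ∣ (A : ℤ) - n := by
      rw [← neg_sub]
      exact (dvd_neg).2 h1
    set w := ((A : ℤ) - n) / (q : ℤ) ^ j with hw
    have h5 : (q : ℤ) ^ j * w = (A : ℤ) - n := Int.mul_ediv_cancel' h4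
    have h6 : (q : ℤ) ^ j * q ∣ (q : ℤ) ^ j * (w + R) := by
      rw [← pow_succ]
      have : (q : ℤ) ^ j * (w + R) = -((n : ℤ) - (A + q ^ j * R)) := by
        rw [mul_add, h5]; ring
      rw [this]
      exact (dvd_neg).2 H
    have h7 : (q : ℤ) ∣ w + R := (mul_dvd_mul_iff_left hqj).1 h6
    have : (T : ℤ) + w = (w + R) + (T - R) := by ring
    rw [this]
    exact dvd_add h7 hRT
  · rintro ⟨h1, h2⟩
    have h4 : (q : ℤ) ^ j ∣ (A : ℤ) - n := by
      rw [← neg_sub]
      exact (dvd_neg).2 h1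
    set w := ((A : ℤ) - n) / (q : ℤ) ^ j with hw
    have h5 : (q : ℤ) ^ j * w = (A : ℤ) - n := Int.mul_ediv_cancel' h4
    have h7 : (q : ℤ) ∣ w + R := by
      have : w + (R : ℤ) = (T + w) - (T - R) := by ring
      rw [this]
      exact dvd_sub h2 hRT
    have h6 : (q : ℤ) ^ j * q ∣ (q : ℤ) ^ j * (w + R) := mul_dvd_mul_left _ h7
    rw [pow_succ]
    have : (n : ℤ) - (A + q ^ j * R) = -((q : ℤ) ^ j * (w + R)) := by
      rw [mul_add, h5]; ring
    rw [this]
    exact (dvd_neg).2 h6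

end CHa

open CHa in
theorem t_CH : T_CH := by
  intro h p j hp v k cls n
  set q := p ^ h with hq
  have hp0 : 0 < p := by omega
  have hq0 : 0 < q := by positivity
  have hpj : 0 < p ^ j := by positivity
  refine ⟨fun s => ((((∑ i, v (cls i) (s i) : ℕ) : ℤ)) - n) / (q : ℤ) ^ j, fun X => ?_⟩
  have hkey : ∀ s e : Fin k → ℕ, (∀ i, s i < p ^ j) →
      ((∑ i, nx h p j v X (cls i) (s i + p ^ j * e i)) ≡ n [MOD q ^ (j + 1)] ↔
        (∑ i, v (cls i) (s i)) ≡ n [MOD q ^ j] ∧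
          (q : ℤ) ∣ (∑ i, ((p ^ (cls i : ℕ) * e i : ℕ) : ℤ)) +
            (∑ i, ((X (cls i) (s i) : ℕ) : ℤ)) +
              ((((∑ i, v (cls i) (s i) : ℕ) : ℤ)) - n) / (q : ℤ) ^ j) := by
    intro s e hs
    have h1 : ∑ i, nx h p j v X (cls i) (s i + p ^ j * e i) =
        (∑ i, v (cls i) (s i)) +
          q ^ j * ∑ i, ((p ^ (cls i : ℕ) * e i + X (cls i) (s i)) % q) := by
      rw [mul_sum, ← sum_add_distrib]
      refine sum_congr rfl fun i _ => ?_
      unfold nx
      have h2 : (s i + p ^ j * e i) % p ^ j = s i := by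
        rw [Nat.add_mul_mod_self_left, Nat.mod_eq_of_lt (hs i)]
      have h3 : (s i + p ^ j * e i) / p ^ j = e i := by
        rw [Nat.add_mul_div_left _ _ hpj, Nat.div_eq_of_lt (hs i), zero_add]
      rw [h2, h3]
    rw [h1, key q j hq0 _ _ (∑ i, (p ^ (cls i : ℕ) * e i + X (cls i) (s i))) n ?_]
    · have h4 : ((∑ i, (p ^ (cls i : ℕ) * e i + X (cls i) (s i)) : ℕ) : ℤ) =
          (∑ i, ((p ^ (cls i : ℕ) * e i : ℕ) : ℤ)) + (∑ i, ((X (cls i) (s i) : ℕ) : ℤ)) := by
        rw [← sum_add_distrib]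
        push_cast
        rfl
      rw [h4]
    · push_cast
      rw [← sum_sub_distrib]
      refine dvd_sum fun i _ => ?_
      exact Int.dvd_self_sub_emod
  have hmaps : ∀ t ∈ SO h p (j + 1) (nx h p j v X) cls n,
      (fun i => t i % p ^ j) ∈ SO h p j v cls n := by
    intro t ht
    rw [SO, mem_filter, Fintype.mem_piFinset] at ht ⊢
    refine ⟨fun i => mem_range.2 (Nat.mod_lt _ hpj), ?_⟩
    have h2 := (hkey (fun i => t i % p ^ j) (fun i => t i / p ^ j)
      (fun i => Nat.mod_lt _ hpj)).1 (by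
        have : ∀ i, t i % p ^ j + p ^ j * (t i / p ^ j) = t i := fun i => Nat.mod_add_div _ _
        simp only [this]
        exact ht.2)
    exact h2.1
  rw [card_eq_sum_card_fiberwise hmaps]
  refine sum_congr rfl fun s hs => ?_
  rw [SO, mem_filter, Fintype.mem_piFinset] at hs
  have hs1 : ∀ i, s i < p ^ j := fun i => mem_range.1 (hs.1 i)
  refine card_nbij' (fun t i => t i / p ^ j) (fun e i => s i + p ^ j * e i) ?_ ?_ ?_ ?_
  · intro t ht
    rw [mem_coe, mem_filter, SO, mem_filter, Fintype.mem_piFinset] at ht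
    obtain ⟨⟨ht1, ht2⟩, ht3⟩ := ht
    rw [mem_coe, mem_filter, Fintype.mem_piFinset]
    have hts : ∀ i, t i % p ^ j = s i := fun i => congrFun ht3 i
    refine ⟨fun i => mem_range.2 ?_, ?_⟩
    · rw [Nat.div_lt_iff_lt_mul hpj]
      have := mem_range.1 (ht1 i)
      rw [pow_succ, mul_comm] at this
      exact this
    · have h2 := (hkey s (fun i => t i / p ^ j) hs1).1 (by
        have : ∀ i, s i + p ^ j * (t i / p ^ j) = t i := fun i => by
          rw [← hts i]; exact Nat.mod_add_div _ _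
        simp only [this]
        exact ht2)
      exact h2.2
  · intro e he
    rw [mem_coe, mem_filter, Fintype.mem_piFinset] at he
    rw [mem_coe, mem_filter, SO, mem_filter, Fintype.mem_piFinset]
    refine ⟨⟨fun i => mem_range.2 ?_, ?_⟩, ?_⟩
    · have h1 := mem_range.1 (he.1 i)
      have h2 := hs1 i
      calc s i + p ^ j * e i < p ^ j + p ^ j * e i := by omega
        _ = p ^ j * (e i + 1) := by ring
        _ ≤ p ^ j * p := Nat.mul_le_mul_left _ h1
        _ = p ^ (j + 1) := by rw [pow_succ]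
    · exact (hkey s e hs1).2 ⟨hs.2, he.2⟩
    · funext i
      show (s i + p ^ j * e i) % p ^ j = s i
      rw [Nat.add_mul_mod_self_left, Nat.mod_eq_of_lt (hs1 i)]
  · intro t ht
    rw [mem_coe, mem_filter] at ht
    funext i
    have hts : t i % p ^ j = s i := congrFun ht.2 i
    show s i + p ^ j * (t i / p ^ j) = t i
    rw [← hts]
    exact Nat.mod_add_div _ _
  · intro e he
    funext i
    show (s i + p ^ j * e i) / p ^ j = e i
    rw [Nat.add_mul_div_left _ _ hpj, Nat.div_eq_of_lt (hs1 i), zero_add]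

end Pool.Agent.T2h22.TB
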