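import Pool.Agent.T2h22.TB.Stm

set_option autoImplicit false

open Finset

namespace Pool.Agent.T2h22.TB

/-- base `p` digits of a number below `p ^ h` -/
theorem co_digits (p : ℕ) (hp : 1 < p) : ∀ (h W : ℕ), W < p ^ h →
    ∑ i : Fin h, p ^ (i : ℕ) * (W / p ^ (i : ℕ) % p) = W := by
  intro h
  induction h with
  | zero => intro W hW; simp at hW; simp [hW]
  | succ h ih =>
    intro W hW
    rw [Fin.sum_univ_castSucc]
    simp only [Fin.val_castSucc, Fin.val_last]
    have h1 : ∀ i : Fin h, p ^ (i : ℕ) * (W / p ^ (i : ℕ) % p) =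
        p ^ (i : ℕ) * ((W % p ^ h) / p ^ (i : ℕ) % p) := by
      intro i
      congr 1
      have h2 : p ^ h = p ^ (i : ℕ) * (p * p ^ (h - 1 - (i : ℕ))) := by
        rw [← mul_assoc, ← pow_succ, ← pow_add]
        congr 1
        have := i.2
        omega
      rw [h2, Nat.mod_mul_right_div_self, Nat.mod_mul_right_mod]
    rw [Finset.sum_congr rfl (fun i _ => h1 i), ih _ (Nat.mod_lt _ (by positivity))]
    have h3 : W / p ^ h < p := by
      rw [Nat.div_lt_iff_lt_mul (by positivity)]
      rw [pow_succ] at hW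
      rw [mul_comm]; exact hW
    rw [Nat.mod_eq_of_lt h3]
    exact Nat.mod_add_div _ _

theorem t_CO : T_CO := by
  intro h p hp S j
  have hp0 : 0 < p := by omega
  induction j with
  | zero =>
    intro n
    refine ⟨fun _ => 0, fun i => by simp, ?_⟩
    simp [Nat.modEq_one]
  | succ j ih =>
    intro n
    obtain ⟨m, hm, hsum⟩ := ih n
    set q := p ^ h with hq
    have hq0 : 0 < q := by positivity
    -- the defect
    obtain ⟨W, hW⟩ : ∃ W : ℕ, (∑ i : Fin h, S.v j i (m i)) + q ^ j * W ≡ n [MOD q ^ (j + 1)] := by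
      have h1 := (Nat.modEq_iff_dvd.1 hsum)
      obtain ⟨z, hz⟩ := h1
      refine ⟨(z % (q : ℤ)).toNat, ?_⟩
      rw [Nat.modEq_iff_dvd]
      have h2 : (((z % (q : ℤ)).toNat : ℕ) : ℤ) = z % (q : ℤ) :=
        Int.toNat_of_nonneg (Int.emod_nonneg _ (by exact_mod_cast hq0.ne'))
      push_cast
      rw [h2]
      push_cast at hz
      have h3 : z % (q : ℤ) = z - q * (z / q) := by
        have := Int.emod_add_mul_ediv z q
        linarith
      rw [h3]
      refine ⟨z / q, ?_⟩
      rw [pow_succ]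
      linear_combination hz
    set R : ℕ := (W + ∑ i : Fin h, (q - 1) * S.X j i (m i)) % q with hR
    have hRlt : R < p ^ h := Nat.mod_lt _ hq0
    refine ⟨fun i => m i + p ^ j * (R / p ^ (i : ℕ) % p), ?_, ?_⟩
    · intro i
      have h1 := hm i
      have h2 : R / p ^ (i : ℕ) % p < p := Nat.mod_lt _ hp0
      have h3 : p ^ j * (R / p ^ (i : ℕ) % p + 1) ≤ p ^ j * p := Nat.mul_le_mul_left _ h2
      rw [mul_add, mul_one] at h3
      show m i + p ^ j * (R / p ^ (i : ℕ) % p) < p ^ (j + 1)
      rw [pow_succ]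
      omega
    · rw [S.vs]
      unfold nx
      have e1 : ∀ i : Fin h, (m i + p ^ j * (R / p ^ (i : ℕ) % p)) % p ^ j = m i := by
        intro i
        rw [Nat.add_mul_mod_self_left, Nat.mod_eq_of_lt (hm i)]
      have e2 : ∀ i : Fin h, (m i + p ^ j * (R / p ^ (i : ℕ) % p)) / p ^ j = R / p ^ (i : ℕ) % p := by
        intro i
        rw [Nat.add_mul_div_left _ _ (by positivity), Nat.div_eq_of_lt (hm i), zero_add]
      simp only [e1, e2]
      rw [Finset.sum_add_distrib, ← Finset.mul_sum]
      refine Nat.ModEq.trans ?_ hW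
      apply Nat.ModEq.add_left
      rw [pow_succ]
      apply Nat.ModEq.mul_left'
      -- the sum of the digits parts
      have s1 : ∑ i : Fin h, (p ^ (i : ℕ) * (R / p ^ (i : ℕ) % p) + S.X j i (m i)) % p ^ h ≡
          ∑ i : Fin h, (p ^ (i : ℕ) * (R / p ^ (i : ℕ) % p) + S.X j i (m i)) [MOD q] := by
        have := (Finset.sum_nat_mod Finset.univ q
          (fun i : Fin h => (p ^ (i : ℕ) * (R / p ^ (i : ℕ) % p) + S.X j i (m i))))
        exact this.symm
      refine s1.trans ?_
      rw [Finset.sum_add_distrib, co_digits p hp h R hRlt]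
      have s2 : R ≡ W + ∑ i : Fin h, (q - 1) * S.X j i (m i) [MOD q] := Nat.mod_modEq _ _
      refine (Nat.ModEq.add_right _ s2).trans ?_
      rw [add_assoc, ← Finset.sum_add_distrib]
      have s3 : ∑ i : Fin h, ((q - 1) * S.X j i (m i) + S.X j i (m i)) =
          q * ∑ i : Fin h, S.X j i (m i) := by
        rw [Finset.mul_sum]
        apply Finset.sum_congr rfl
        intro i _
        obtain ⟨r, hr⟩ : ∃ r, q = r + 1 := ⟨q - 1, by omega⟩
        rw [hr, Nat.add_sub_cancel]
        ring
      rw [s3]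
      have s4 : q * ∑ i : Fin h, S.X j i (m i) ≡ 0 [MOD q] := by
        rw [Nat.modEq_zero_iff_dvd]
        exact Nat.dvd_mul_right _ _
      simpa using Nat.ModEq.add_left W s4

end Pool.Agent.T2h22.TB
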