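import Pool.Agent.T2h22.TB.Stm

set_option autoImplicit false

open Finset

namespace Pool.Agent.T2h22.TB

theorem t_DEG : T_DEG := by
  classical
  intro h p j hp v k D0 hD cls n i₀ m₀
  have hq0 : 0 < (p ^ h) ^ j := by positivity
  set N : ℕ := n + v i₀ m₀ * ((p ^ h) ^ j - 1) with hN
  -- covering by the places
  have hsub : ((SO h p j v cls n).filter fun s => ∃ a, (cls a : ℕ) = i₀ ∧ s a = m₀) ⊆
      (Finset.univ : Finset (Fin (k + 1))).biUnion fun a =>
        (SO h p j v cls n).filter fun s => (cls a : ℕ) = i₀ ∧ s a = m₀ := by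
    intro s hs
    rw [Finset.mem_filter] at hs
    obtain ⟨h1, a, h2, h3⟩ := hs
    rw [Finset.mem_biUnion]
    exact ⟨a, Finset.mem_univ _, Finset.mem_filter.2 ⟨h1, h2, h3⟩⟩
  have hone : ∀ a : Fin (k + 1),
      (((SO h p j v cls n).filter fun s => (cls a : ℕ) = i₀ ∧ s a = m₀).card : ℝ) ≤ D0 := by
    intro a
    refine le_trans ?_ (hD (fun i => cls (a.succAbove i)) N)
    norm_cast
    apply Finset.card_le_card_of_injOn (fun s => fun i => s (a.succAbove i))
    · intro s hs
      rw [Finset.mem_coe, Finset.mem_filter] at hs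
      obtain ⟨h1, h2, h3⟩ := hs
      unfold SO at h1
      rw [Finset.mem_filter, Fintype.mem_piFinset] at h1
      obtain ⟨h4, h5⟩ := h1
      rw [Finset.mem_coe]
      unfold SO
      rw [Finset.mem_filter, Fintype.mem_piFinset]
      refine ⟨fun i => h4 _, ?_⟩
      rw [Fin.sum_univ_succAbove _ a, h2, h3] at h5
      have h6 : v i₀ m₀ * ((p ^ h) ^ j - 1) + (v i₀ m₀ +
          ∑ i : Fin k, v (cls (a.succAbove i)) (s (a.succAbove i))) ≡
          v i₀ m₀ * ((p ^ h) ^ j - 1) + n [MOD (p ^ h) ^ j] := Nat.ModEq.add_left _ h5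
      have h7 : v i₀ m₀ * ((p ^ h) ^ j - 1) + (v i₀ m₀ +
          ∑ i : Fin k, v (cls (a.succAbove i)) (s (a.succAbove i))) =
          (∑ i : Fin k, v (cls (a.succAbove i)) (s (a.succAbove i))) +
            (p ^ h) ^ j * v i₀ m₀ := by
        obtain ⟨r, hr⟩ : ∃ r, (p ^ h) ^ j = r + 1 := ⟨(p ^ h) ^ j - 1, by omega⟩
        rw [hr, Nat.add_sub_cancel]
        ring
      rw [h7, Nat.add_comm (v i₀ m₀ * ((p ^ h) ^ j - 1)) n] at h6
      have h8 : (p ^ h) ^ j * v i₀ m₀ ≡ 0 [MOD (p ^ h) ^ j] := by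
        rw [Nat.modEq_zero_iff_dvd]
        exact Nat.dvd_mul_right _ _
      have h9 : (∑ i : Fin k, v (cls (a.succAbove i)) (s (a.succAbove i))) +
            (p ^ h) ^ j * v i₀ m₀ ≡
            (∑ i : Fin k, v (cls (a.succAbove i)) (s (a.succAbove i))) [MOD (p ^ h) ^ j] := by
        simpa using Nat.ModEq.add_left
          (∑ i : Fin k, v (cls (a.succAbove i)) (s (a.succAbove i))) h8
      exact h9.symm.trans h6
    · intro s hs s' hs' hss
      rw [Finset.mem_coe, Finset.mem_filter] at hs hs'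
      funext b
      rcases Fin.eq_self_or_eq_succAbove a b with h1 | ⟨i, h1⟩
      · rw [h1, hs.2.2, hs'.2.2]
      · rw [h1]
        exact congrFun hss i
  calc (((SO h p j v cls n).filter fun s => ∃ a, (cls a : ℕ) = i₀ ∧ s a = m₀).card : ℝ)
      ≤ (((Finset.univ : Finset (Fin (k + 1))).biUnion fun a =>
        (SO h p j v cls n).filter fun s => (cls a : ℕ) = i₀ ∧ s a = m₀).card : ℝ) := by
        exact_mod_cast Finset.card_le_card hsub
    _ ≤ ∑ a : Fin (k + 1),
        (((SO h p j v cls n).filter fun s => (cls a : ℕ) = i₀ ∧ s a = m₀).card : ℝ) := by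
        exact_mod_cast Finset.card_biUnion_le
    _ ≤ ∑ _a : Fin (k + 1), D0 := Finset.sum_le_sum fun a _ => hone a
    _ = ((k : ℝ) + 1) * D0 := by
        rw [Finset.sum_const, Finset.card_univ, Fintype.card_fin, nsmul_eq_mul]
        push_cast
        ring

end Pool.Agent.T2h22.TB
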