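import Pool.Agent.T2h22.TB.Stm

set_option autoImplicit false

open Finset

namespace Pool.Agent.T2h22.TB

namespace EE

lemma avg {V G : Type} [Fintype V] [DecidableEq V] [Fintype G] (v : V) (F : (V → G) → ℝ) :
    ∑ X : V → G, ∑ g : G, F (Function.update X v g) = (Fintype.card G : ℝ) * ∑ X : V → G, F X := by
  have h1 : ∑ X : V → G, ∑ g : G, F (Function.update X v g) =
      ∑ p : (V → G) × G, F (Function.update p.1 v p.2) := by
    rw [Fintype.sum_prod_type]
  have h2 : ∑ p : (V → G) × G, F (Function.update p.1 v p.2) = ∑ p : (V → G) × G, F p.1 := by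
    refine Fintype.sum_equiv
      { toFun := fun p => (Function.update p.1 v p.2, p.1 v)
        invFun := fun p => (Function.update p.1 v p.2, p.1 v)
        left_inv := fun p => by simp
        right_inv := fun p => by simp } _ _ (fun p => rfl)
  rw [h1, h2, Fintype.sum_prod_type]
  simp only [sum_const, card_univ, nsmul_eq_mul, mul_sum]

lemma exp_le {y : ℝ} (h0 : 0 ≤ y) (h1 : y ≤ 1) : Real.exp y ≤ 1 + y + y ^ 2 := by
  have h := Real.abs_exp_sub_one_sub_id_le (x := y) (by rw [abs_of_nonneg h0]; exact h1)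
  have := (abs_le.1 h).2
  linarith

end EE

open Classical in
theorem t_E : T_E := by
  intro V G ι _ _ _ _ S f supp M D lam hne hf hloc hsum hdeg hlam hMD
  induction hn : S.card using Nat.strong_induction_on generalizing S with
  | _ n ih =>
  rcases S.eq_empty_or_nonempty with rfl | ⟨s₀, hs₀⟩
  · subst hn
    simp
  obtain ⟨v, hv⟩ := hne s₀ hs₀
  have hM : 0 ≤ M := by
    obtain ⟨g⟩ := ‹Nonempty G›
    have := hf s₀ hs₀ (fun _ => g)
    linarith
  set S₁ := S.filter fun s => v ∈ supp s with hS₁
  set S₂ := S.filter fun s => ¬ v ∈ supp s with hS₂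
  have hcard : S₁.card + S₂.card = S.card := by
    rw [hS₁, hS₂]
    exact card_filter_add_card_filter_not _
  have hS₁c : (S₁.card : ℝ) ≤ D := hdeg v
  have hpos : 0 < S₁.card := card_pos.2 ⟨s₀, mem_filter.2 ⟨hs₀, hv⟩⟩
  have hsub2 : ∀ s ∈ S₂, s ∈ S := fun s hs => (mem_filter.1 hs).1
  have hsub1 : ∀ s ∈ S₁, s ∈ S := fun s hs => (mem_filter.1 hs).1
  have hih := ih S₂.card (by omega) S₂ (fun s hs => hne s (hsub2 s hs))
    (fun s hs => hf s (hsub2 s hs)) (fun s hs => hloc s (hsub2 s hs))
    (fun s hs => hsum s (hsub2 s hs))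
    (fun w => le_trans (by
      exact_mod_cast card_le_card (filter_subset_filter _ (filter_subset _ _))) (hdeg w)) rfl
  set c := lam + lam ^ 2 * M ^ 2 * D with hc
  have hD : 0 ≤ D := le_trans (Nat.cast_nonneg _) hS₁c
  have hGpos : (0 : ℝ) < Fintype.card G := by exact_mod_cast Fintype.card_pos
  -- the inner sum
  have hinner : ∀ X : V → G, ∑ g : G, Real.exp (lam * ∑ s ∈ S, f s (Function.update X v g)) ≤
      (Fintype.card G : ℝ) * (Real.exp (c * S₁.card) * Real.exp (lam * ∑ s ∈ S₂, f s X)) := by
    intro X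
    have hsplit : ∀ g : G, Real.exp (lam * ∑ s ∈ S, f s (Function.update X v g)) =
        Real.exp (lam * ∑ s ∈ S₂, f s X) *
          Real.exp (lam * ∑ s ∈ S₁, f s (Function.update X v g)) := by
      intro g
      rw [← Real.exp_add, ← mul_add]
      congr 2
      have h1 : ∑ s ∈ S, f s (Function.update X v g) =
          ∑ s ∈ S₁, f s (Function.update X v g) + ∑ s ∈ S₂, f s (Function.update X v g) := by
        rw [hS₁, hS₂, sum_filter_add_sum_filter_not]
      rw [h1, add_comm]
      congr 1
      refine sum_congr rfl fun s hs => ?_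
      refine hloc s (hsub2 s hs) _ _ fun w hw => ?_
      have hwv : w ≠ v := by
        rintro rfl
        exact (mem_filter.1 hs).2 hw
      rw [Function.update_of_ne hwv]
    simp only [hsplit]
    rw [← mul_sum]
    have hy0 : ∀ g : G, 0 ≤ ∑ s ∈ S₁, f s (Function.update X v g) := fun g =>
      sum_nonneg fun s hs => (hf s (hsub1 s hs) _).1
    have hyM : ∀ g : G, ∑ s ∈ S₁, f s (Function.update X v g) ≤ S₁.card * M := fun g => by
      calc ∑ s ∈ S₁, f s (Function.update X v g) ≤ ∑ s ∈ S₁, M :=
            sum_le_sum fun s hs => (hf s (hsub1 s hs) _).2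
        _ = S₁.card * M := by rw [sum_const, nsmul_eq_mul]
    have hlS : lam * (S₁.card * M) ≤ 1 := by
      calc lam * (S₁.card * M) ≤ lam * (D * M) :=
            mul_le_mul_of_nonneg_left (mul_le_mul_of_nonneg_right hS₁c hM) hlam
        _ = lam * M * D := by ring
        _ ≤ 1 := hMD
    have hterm : ∀ g : G, Real.exp (lam * ∑ s ∈ S₁, f s (Function.update X v g)) ≤
        1 + lam * (∑ s ∈ S₁, f s (Function.update X v g)) + lam ^ 2 * M ^ 2 * D * S₁.card := by
      intro g
      have hA : 0 ≤ lam * ∑ s ∈ S₁, f s (Function.update X v g) := mul_nonneg hlam (hy0 g)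
      have hB : lam * ∑ s ∈ S₁, f s (Function.update X v g) ≤ lam * (S₁.card * M) :=
        mul_le_mul_of_nonneg_left (hyM g) hlam
      refine (EE.exp_le hA (hB.trans hlS)).trans ?_
      have hC : (lam * ∑ s ∈ S₁, f s (Function.update X v g)) ^ 2 ≤
          (lam * (S₁.card * M)) ^ 2 := pow_le_pow_left₀ hA hB 2
      have hE : (lam * (S₁.card * M)) ^ 2 ≤ lam ^ 2 * M ^ 2 * D * S₁.card := by
        have : (lam * (S₁.card * M)) ^ 2 = (lam ^ 2 * M ^ 2 * S₁.card) * S₁.card := by ring
        rw [this]
        have h3 : lam ^ 2 * M ^ 2 * (S₁.card : ℝ) * S₁.card ≤ lam ^ 2 * M ^ 2 * S₁.card * D :=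
          mul_le_mul_of_nonneg_left hS₁c (by positivity)
        calc lam ^ 2 * M ^ 2 * (S₁.card : ℝ) * S₁.card ≤ lam ^ 2 * M ^ 2 * S₁.card * D := h3
          _ = lam ^ 2 * M ^ 2 * D * S₁.card := by ring
      linarith
    have hsum' : ∑ g : G, Real.exp (lam * ∑ s ∈ S₁, f s (Function.update X v g)) ≤
        (Fintype.card G : ℝ) * Real.exp (c * S₁.card) := by
      calc ∑ g : G, Real.exp (lam * ∑ s ∈ S₁, f s (Function.update X v g))
          ≤ ∑ g : G, (1 + lam * (∑ s ∈ S₁, f s (Function.update X v g)) +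
              lam ^ 2 * M ^ 2 * D * S₁.card) := sum_le_sum fun g _ => hterm g
        _ = Fintype.card G + lam * (∑ s ∈ S₁, ∑ g : G, f s (Function.update X v g)) +
              Fintype.card G * (lam ^ 2 * M ^ 2 * D * S₁.card) := by
            rw [sum_add_distrib, sum_add_distrib, ← mul_sum, sum_comm]
            simp only [sum_const, card_univ, nsmul_eq_mul, mul_one]
        _ ≤ Fintype.card G + lam * (S₁.card * Fintype.card G) +
              Fintype.card G * (lam ^ 2 * M ^ 2 * D * S₁.card) := by
            have h4 : ∑ s ∈ S₁, ∑ g : G, f s (Function.update X v g) ≤ S₁.card * Fintype.card G := by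
              calc ∑ s ∈ S₁, ∑ g : G, f s (Function.update X v g)
                  ≤ ∑ s ∈ S₁, (Fintype.card G : ℝ) :=
                    sum_le_sum fun s hs => hsum s (hsub1 s hs) v (mem_filter.1 hs).2 X
                _ = _ := by rw [sum_const, nsmul_eq_mul]
            have := mul_le_mul_of_nonneg_left h4 hlam
            linarith
        _ = Fintype.card G * (c * S₁.card + 1) := by rw [hc]; ring
        _ ≤ Fintype.card G * Real.exp (c * S₁.card) :=
            mul_le_mul_of_nonneg_left (Real.add_one_le_exp _) hGpos.le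
    calc Real.exp (lam * ∑ s ∈ S₂, f s X) *
          ∑ g : G, Real.exp (lam * ∑ s ∈ S₁, f s (Function.update X v g))
        ≤ Real.exp (lam * ∑ s ∈ S₂, f s X) *
            ((Fintype.card G : ℝ) * Real.exp (c * S₁.card)) :=
          mul_le_mul_of_nonneg_left hsum' (Real.exp_pos _).le
      _ = _ := by ring
  have hav := EE.avg v fun X : V → G => Real.exp (lam * ∑ s ∈ S, f s X)
  have htot : (Fintype.card G : ℝ) * ∑ X : V → G, Real.exp (lam * ∑ s ∈ S, f s X) ≤
      (Fintype.card G : ℝ) * ((Fintype.card G : ℝ) ^ Fintype.card V * Real.exp (c * S.card)) := by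
    rw [← hav]
    calc ∑ X : V → G, ∑ g : G, Real.exp (lam * ∑ s ∈ S, f s (Function.update X v g))
        ≤ ∑ X : V → G, (Fintype.card G : ℝ) *
            (Real.exp (c * S₁.card) * Real.exp (lam * ∑ s ∈ S₂, f s X)) :=
          sum_le_sum fun X _ => hinner X
      _ = (Fintype.card G : ℝ) * (Real.exp (c * S₁.card) *
            ∑ X : V → G, Real.exp (lam * ∑ s ∈ S₂, f s X)) := by
          simp only [mul_sum]
      _ ≤ (Fintype.card G : ℝ) * (Real.exp (c * S₁.card) *
            ((Fintype.card G : ℝ) ^ Fintype.card V * Real.exp (c * S₂.card))) := by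
          refine mul_le_mul_of_nonneg_left (mul_le_mul_of_nonneg_left hih (Real.exp_pos _).le)
            hGpos.le
      _ = _ := by
          have : (S.card : ℝ) = S₁.card + S₂.card := by exact_mod_cast hcard.symm
          rw [this, mul_add, Real.exp_add]
          ring
  have := le_of_mul_le_mul_left htot hGpos
  rw [← hn]
  exact this

end Pool.Agent.T2h22.TB
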