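import Pool.Agent.T2h22.TB.Stm

/-! One level, one pattern. -/

set_option autoImplicit false

open Finset

namespace Pool.Agent.T2h22.TB

theorem ex_apply {h p j : ℕ} (X : HX h p j) (i : Fin h) {m : ℕ} (hm : m < p ^ j) :
    ex X i m = (X (i, ⟨m, hm⟩) : ℕ) := by
  unfold ex
  rw [dif_pos ⟨i.2, hm⟩]

theorem t_ST (hE : T_E) (hC : T_CH) (hU : T_UN) (hD : T_DEG) : T_ST := by
  classical
  intro h p j hp hhp v k hk D0 lam hD0 hlam hlamD cls n
  have hp1 : 1 < p := hp.one_lt
  obtain ⟨w, hw⟩ := hC h p j hp1 v (k + 1) cls n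
  have : Nonempty (Fin (p ^ h)) := ⟨⟨0, by positivity⟩⟩
  have hmem : ∀ s ∈ SO h p j v cls n, ∀ i, s i < p ^ j := by
    intro s hs i
    unfold SO at hs
    rw [mem_filter, Fintype.mem_piFinset] at hs
    exact mem_range.1 (hs.1 i)
  set f : (Fin (k + 1) → ℕ) → HX h p j → ℝ := fun s X =>
    (((Fintype.piFinset fun _ : Fin (k + 1) => range p).filter fun e : Fin (k + 1) → ℕ =>
        ((p ^ h : ℕ) : ℤ) ∣ (∑ i, ((p ^ (cls i : ℕ) * e i : ℕ) : ℤ)) +
          (∑ i, ((ex X (cls i) (s i) : ℕ) : ℤ)) + w s).card : ℝ) with hf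
  set supp : (Fin (k + 1) → ℕ) → Finset (Fin h × Fin (p ^ j)) := fun s =>
    univ.filter fun x => ∃ i, cls i = x.1 ∧ s i = (x.2 : ℕ) with hsupp
  have hcard : ((Fintype.piFinset fun _ : Fin (k + 1) => range p).card : ℝ) ≤ (p : ℝ) ^ h := by
    rw [Fintype.card_piFinset]
    simp only [card_range, prod_const, card_univ, Fintype.card_fin]
    push_cast
    exact pow_le_pow_right₀ (by exact_mod_cast hp1.le) hk
  have hmain := hE (Fin h × Fin (p ^ j)) (Fin (p ^ h)) (Fin (k + 1) → ℕ) (SO h p j v cls n) f supp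
    ((p : ℝ) ^ h) (((k : ℝ) + 1) * D0) lam ?_ ?_ ?_ ?_ ?_ hlam hlamD
  · calc ∑ X : HX h p j, Real.exp (lam * ((SO h p (j + 1) (nx h p j v (ex X)) cls n).card : ℝ))
        = ∑ X : HX h p j, Real.exp (lam * ∑ s ∈ SO h p j v cls n, f s X) := by
          refine sum_congr rfl fun X _ => ?_
          rw [hw (ex X)]
          push_cast
          rfl
      _ ≤ _ := hmain
      _ = _ := by
          rw [Fintype.card_fun]
          push_cast
          rfl
  · intro s hs
    refine ⟨(cls 0, ⟨s 0, hmem s hs 0⟩), ?_⟩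
    rw [hsupp]
    simp only [mem_filter, mem_univ, true_and]
    exact ⟨0, rfl, rfl⟩
  · intro s hs X
    refine ⟨by positivity, le_trans ?_ hcard⟩
    simp only [hf]
    exact_mod_cast card_le_card (filter_subset _ _)
  · intro s hs X X' hXX
    have h1 : ∀ i, ex X (cls i) (s i) = ex X' (cls i) (s i) := by
      intro i
      rw [ex_apply X (cls i) (hmem s hs i), ex_apply X' (cls i) (hmem s hs i)]
      rw [hXX (cls i, ⟨s i, hmem s hs i⟩) (by
        rw [hsupp]
        simp only [mem_filter, mem_univ, true_and]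
        exact ⟨i, rfl, rfl⟩)]
    simp only [hf, h1]
  · intro s hs x hx X
    rw [hsupp] at hx
    simp only [mem_filter, mem_univ, true_and] at hx
    obtain ⟨i₁, hi₁, hs₁⟩ := hx
    set P : Fin (k + 1) → Prop := fun i => cls i = x.1 ∧ s i = (x.2 : ℕ) with hP
    set c : ℕ := (univ.filter P).card with hc
    have hc1 : 1 ≤ c := by
      rw [hc]
      exact card_pos.2 ⟨i₁, mem_filter.2 ⟨mem_univ _, hi₁, hs₁⟩⟩
    have hc2 : c ≤ h := by
      refine le_trans ?_ hk
      rw [hc]
      refine (card_filter_le _ _).trans ?_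
      simp
    have h1 : ∀ (g : Fin (p ^ h)) (i : Fin (k + 1)), ((ex (Function.update X x g) (cls i) (s i) : ℕ) : ℤ)
        = (if P i then ((g : ℕ) : ℤ) else 0) + (if P i then 0 else ((ex X (cls i) (s i) : ℕ) : ℤ)) := by
      intro g i
      rw [ex_apply _ (cls i) (hmem s hs i), ex_apply X (cls i) (hmem s hs i)]
      by_cases hPi : P i
      · rw [if_pos hPi, if_pos hPi, add_zero]
        have h2 : (cls i, (⟨s i, hmem s hs i⟩ : Fin (p ^ j))) = x := by
          apply Prod.ext
          · exact hPi.1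
          · apply Fin.ext
            exact hPi.2
        rw [h2, Function.update_self]
      · rw [if_neg hPi, if_neg hPi, zero_add]
        have h2 : (cls i, (⟨s i, hmem s hs i⟩ : Fin (p ^ j))) ≠ x := by
          intro h3
          apply hPi
          exact ⟨congrArg Prod.fst h3, congrArg (fun y : Fin h × Fin (p ^ j) => (y.2 : ℕ)) h3⟩
        rw [Function.update_of_ne h2]
    have h2 : ∀ g : Fin (p ^ h), (∑ i, ((ex (Function.update X x g) (cls i) (s i) : ℕ) : ℤ)) =
        (c : ℤ) * ((g : ℕ) : ℤ) + ∑ i, (if P i then 0 else ((ex X (cls i) (s i) : ℕ) : ℤ)) := by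
      intro g
      rw [sum_congr rfl fun i _ => h1 g i, sum_add_distrib]
      congr 1
      rw [← sum_filter, sum_const, nsmul_eq_mul]
    set b : ℤ := ∑ i, (if P i then 0 else ((ex X (cls i) (s i) : ℕ) : ℤ)) with hb
    have h3 : ∑ g : Fin (p ^ h), f s (Function.update X x g) =
        ((∑ e ∈ Fintype.piFinset fun _ : Fin (k + 1) => range p,
          ((univ : Finset (Fin (p ^ h))).filter fun g : Fin (p ^ h) => ((p ^ h : ℕ) : ℤ) ∣
            (c : ℤ) * ((g : ℕ) : ℤ) + ((∑ i, ((p ^ (cls i : ℕ) * e i : ℕ) : ℤ)) + b + w s)).card : ℕ)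
            : ℝ) := by
      simp only [hf, card_filter]
      push_cast
      rw [sum_comm]
      refine sum_congr rfl fun e _ => sum_congr rfl fun g _ => ?_
      have h4 := h2 g
      rw [h4]
      congr 1
      apply propext
      constructor
      · intro h5
        convert h5 using 1
        ring
      · intro h5
        convert h5 using 1
        ring
    rw [h3, sum_congr rfl fun e _ => hU h p hp hhp c hc1 hc2 _, sum_const, smul_eq_mul, mul_one,
      Fintype.card_fin]
    push_cast
    exact hcard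
  · rintro ⟨i₀, m₀⟩
    have h1 := hD h p j hp1 v k D0 hD0 cls n i₀ m₀
    refine le_trans ?_ h1
    have h2 : (SO h p j v cls n).filter (fun s => (i₀, m₀) ∈ supp s) ⊆
        (SO h p j v cls n).filter fun s => ∃ a, (cls a : ℕ) = i₀ ∧ s a = m₀ := by
      intro s hs
      rw [mem_filter] at hs ⊢
      refine ⟨hs.1, ?_⟩
      have h3 := hs.2
      rw [hsupp] at h3
      simp only [mem_filter, mem_univ, true_and] at h3
      obtain ⟨i, hi, hi2⟩ := h3
      exact ⟨i, by rw [hi], hi2⟩
    exact_mod_cast card_le_card h2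

end Pool.Agent.T2h22.TB
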