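import Pool.Agent.T2h22.TB.Stm
import Pool.Agent.T2h22.TB.ST

/-! Assembly. -/

set_option autoImplicit false

open Finset

namespace Pool.Agent.T2h22.TB

theorem finite_tuples (A : Set ℕ) (h n : ℕ) :
    ({a : Fin h → ℕ | (∀ i, a i ∈ A) ∧ ∑ i, a i = n} : Set (Fin h → ℕ)).Finite := by
  refine Set.Finite.subset (Set.finite_Icc (0 : Fin h → ℕ) (fun _ => n)) ?_
  rintro a ⟨_, ha⟩
  refine ⟨fun i => Nat.zero_le _, fun i => ?_⟩
  rw [← ha]
  exact single_le_sum (f := fun i => a i) (fun _ _ => Nat.zero_le _) (mem_univ i)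

theorem t_FI (hE : T_E) (hC : T_CH) (hU : T_UN) (hD : T_DEG) (hPO : T_PO) (hHA : T_HA)
    (hVA : T_VA) (hCO : T_CO) (hBA : T_BA) (hTH : T_TH) (hMI : T_MI) (hUP : T_UP) : T_FI := by
  intro h hh
  have hST : T_ST := t_ST hE hC hU hD
  obtain ⟨p, hp1, hp⟩ := Nat.exists_infinite_primes (h + 1)
  obtain ⟨S⟩ := hHA hPO hST h p (by omega) hp (by omega)
  refine ⟨SA S, fun n hn => hBA hVA hCO h p (by omega) hp.one_lt S n hn,
    hTH hVA h p (by omega) hp.one_lt S, ?_⟩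
  obtain ⟨C, E, hCE⟩ := hUP hVA hMI h p (by omega) hp.one_lt S
  refine ⟨C, E, fun n hn => le_trans ?_ (hCE n hn)⟩
  exact_mod_cast Set.ncard_le_ncard (fun a ha => ⟨ha.2.1, ha.2.2⟩) (finite_tuples _ h n)

end Pool.Agent.T2h22.TB
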