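import Pool.Agent.T2h22.TB.Stm

/-! Project TB, task HA: the system of values exists. -/

set_option autoImplicit false

open Finset

namespace Pool.Agent.T2h22.TB

namespace HA

noncomputable def bb (L q : ℝ) : ℕ → ℝ
  | 0 => 1
  | k + 1 => L * q ^ 2 * ((k : ℝ) + 1) * bb L q k

theorem one_le_bb {L q : ℝ} (hL : 1 ≤ L) (hq : 1 ≤ q) : ∀ k, 1 ≤ bb L q k
  | 0 => le_refl _
  | k + 1 => by
    have ih := one_le_bb hL hq k
    have h1 : 1 ≤ q ^ 2 := one_le_pow₀ hq
    have h2 : 1 ≤ L * q ^ 2 := one_le_mul_of_one_le_of_one_le hL h1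
    have h3 : (1 : ℝ) ≤ (k : ℝ) + 1 := by
      have := Nat.cast_nonneg (α := ℝ) k
      linarith
    exact one_le_mul_of_one_le_of_one_le (one_le_mul_of_one_le_of_one_le h2 h3) ih

noncomputable def lm (L q : ℝ) (j k : ℕ) : ℝ :=
  1 / (q ^ 2 * k * bb L q (k - 1) * ((j : ℝ) + 1) ^ (2 * k - 1))

theorem lm_succ (L q : ℝ) (j k : ℕ) :
    lm L q j (k + 1) = 1 / (q ^ 2 * ((k : ℝ) + 1) * bb L q k * ((j : ℝ) + 1) ^ (2 * k + 1)) := by
  unfold lm
  rw [Nat.add_sub_cancel, show 2 * (k + 1) - 1 = 2 * k + 1 by omega]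
  push_cast
  rfl

theorem lm_nonneg {L q : ℝ} (hL : 1 ≤ L) (hq : 1 ≤ q) (j k : ℕ) : 0 ≤ lm L q j k := by
  unfold lm
  have := one_le_bb hL hq (k - 1)
  positivity

theorem lm_le_one {L q : ℝ} (hL : 1 ≤ L) (hq : 1 ≤ q) (j k : ℕ) : lm L q j (k + 1) ≤ 1 := by
  rw [lm_succ]
  have h0 := one_le_bb hL hq k
  have h1 : 1 ≤ q ^ 2 := one_le_pow₀ hq
  have h2 : (1 : ℝ) ≤ (k : ℝ) + 1 := by
    have := Nat.cast_nonneg (α := ℝ) k
    linarith
  have h3 : (1 : ℝ) ≤ ((j : ℝ) + 1) ^ (2 * k + 1) := by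
    have := Nat.cast_nonneg (α := ℝ) j
    exact one_le_pow₀ (by linarith)
  have h4 : 1 ≤ q ^ 2 * ((k : ℝ) + 1) * bb L q k * ((j : ℝ) + 1) ^ (2 * k + 1) :=
    one_le_mul_of_one_le_of_one_le (one_le_mul_of_one_le_of_one_le
      (one_le_mul_of_one_le_of_one_le h1 h2) h0) h3
  rw [div_le_one (by linarith)]
  exact h4

theorem SO_mod (h p j : ℕ) (v : ℕ → ℕ → ℕ) {k : ℕ} (cls : Fin k → Fin h) (n : ℕ) :
    SO h p j v cls n = SO h p j v cls (n % (p ^ h) ^ j) := by
  unfold SO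
  refine Finset.filter_congr fun s _ => ?_
  constructor
  · intro H
    exact H.trans (Nat.mod_modEq _ _).symm
  · intro H
    exact H.trans (Nat.mod_modEq _ _)

theorem exp_le_Psi {h p j : ℕ} (v : ℕ → ℕ → ℕ) (lam : ℕ → ℝ) {k : ℕ} (hk : k ∈ Icc 1 h)
    (cls : Fin k → Fin h) (n : ℕ) (hp : 0 < p) :
    Real.exp (lam k * ((SO h p j v cls n).card : ℝ)) ≤ Psi h p j v lam := by
  rw [SO_mod]
  have hn : n % (p ^ h) ^ j ∈ range ((p ^ h) ^ j) := mem_range.2 (Nat.mod_lt _ (by positivity))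
  unfold Psi
  have h1 := single_le_sum (f := fun n => Real.exp (lam k * ((SO h p j v cls n).card : ℝ)))
    (fun _ _ => (Real.exp_pos _).le) hn
  have h2 := single_le_sum (f := fun cls : Fin k → Fin h =>
    ∑ n ∈ range ((p ^ h) ^ j), Real.exp (lam k * ((SO h p j v cls n).card : ℝ)))
    (fun _ _ => sum_nonneg fun _ _ => (Real.exp_pos _).le) (mem_univ cls)
  have h3 := single_le_sum (f := fun k => ∑ cls : Fin k → Fin h,
    ∑ n ∈ range ((p ^ h) ^ j), Real.exp (lam k * ((SO h p j v cls n).card : ℝ)))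
    (fun _ _ => sum_nonneg fun _ _ => sum_nonneg fun _ _ => (Real.exp_pos _).le) hk
  exact h1.trans (h2.trans h3)

theorem card_le {h p j : ℕ} (hp : 1 < p) {v : ℕ → ℕ → ℕ} {W L : ℝ} (hW : 1 ≤ W)
    (hL : L = Real.log W + Real.log ((p : ℝ) ^ h) + 1)
    (hI : Psi h p j v (lm L ((p : ℝ) ^ h) j) ≤ ((p : ℝ) ^ h) ^ j * W) {k : ℕ} (hk : k ≤ h)
    (cls : Fin k → Fin h) (n : ℕ) :
    ((SO h p j v cls n).card : ℝ) ≤ bb L ((p : ℝ) ^ h) k * ((j : ℝ) + 1) ^ (2 * k) := by
  have hpr : (1 : ℝ) ≤ p := by exact_mod_cast hp.le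
  have hq : (1 : ℝ) ≤ (p : ℝ) ^ h := one_le_pow₀ hpr
  have hlW : 0 ≤ Real.log W := Real.log_nonneg hW
  have hlq : 0 ≤ Real.log ((p : ℝ) ^ h) := Real.log_nonneg hq
  have hL1 : 1 ≤ L := by rw [hL]; linarith
  rcases k with _ | k
  · have h1 : (SO h p j v cls n).card ≤ 1 := by
      unfold SO
      refine (card_filter_le _ _).trans ?_
      simp
    have h2 : ((SO h p j v cls n).card : ℝ) ≤ 1 := by exact_mod_cast h1
    simpa [bb] using h2
  · have h1 := exp_le_Psi (j := j) v (lm L ((p : ℝ) ^ h) j) (mem_Icc.2 ⟨Nat.succ_le_succ (Nat.zero_le k), hk⟩)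
      cls n (lt_trans Nat.zero_lt_one hp)
    have hpos : (0 : ℝ) < ((p : ℝ) ^ h) ^ j * W := by positivity
    have h2 := (Real.le_log_iff_exp_le hpos).2 (h1.trans hI)
    rw [Real.log_mul (by positivity) (by positivity), Real.log_pow] at h2
    have hj : (0 : ℝ) ≤ j := Nat.cast_nonneg _
    have h3 : (j : ℝ) * Real.log ((p : ℝ) ^ h) + Real.log W ≤ ((j : ℝ) + 1) * L := by
      rw [hL]
      nlinarith
    have h4 := h2.trans h3
    rw [lm_succ] at h4
    have hb := one_le_bb hL1 hq k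
    have hden : (0 : ℝ) < ((p : ℝ) ^ h) ^ 2 * ((k : ℝ) + 1) * bb L ((p : ℝ) ^ h) k * ((j : ℝ) + 1) ^ (2 * k + 1) := by
      positivity
    rw [one_div, inv_mul_le_iff₀ hden] at h4
    refine h4.trans (le_of_eq ?_)
    rw [bb, show 2 * (k + 1) = 2 * k + 1 + 1 by ring, pow_succ ((j : ℝ) + 1) (2 * k + 1)]
    ring

theorem psi_zero {h p : ℕ} {L q : ℝ} (hL : 1 ≤ L) (hq : 1 ≤ q) :
    Psi h p 0 (fun _ _ => 0) (lm L q 0) ≤ ∑ k ∈ Icc 1 h, (h : ℝ) ^ k * Real.exp 1 := by
  unfold Psi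
  refine sum_le_sum fun k hk => ?_
  obtain ⟨k', rfl⟩ : ∃ k', k = k' + 1 := ⟨k - 1, by have := (mem_Icc.1 hk).1; omega⟩
  have h1 : ∀ cls : Fin (k' + 1) → Fin h, ∑ n ∈ range ((p ^ h) ^ 0),
      Real.exp (lm L q 0 (k' + 1) * ((SO h p 0 (fun _ _ => 0) cls n).card : ℝ)) ≤ Real.exp 1 := by
    intro cls
    rw [pow_zero, sum_range_one]
    apply Real.exp_le_exp.2
    have h2 : (SO h p 0 (fun _ _ => 0) cls 0).card ≤ 1 := by
      unfold SO
      refine (card_filter_le _ _).trans ?_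
      simp
    have h3 : ((SO h p 0 (fun _ _ => 0) cls 0).card : ℝ) ≤ 1 := by exact_mod_cast h2
    exact mul_le_one₀ (lm_le_one hL hq 0 k') (Nat.cast_nonneg _) h3
  refine (sum_le_sum fun cls _ => h1 cls).trans (le_of_eq ?_)
  rw [sum_const, card_univ, Fintype.card_fun, Fintype.card_fin, Fintype.card_fin, nsmul_eq_mul]
  push_cast
  rfl

end HA

open HA

theorem t_HA : T_HA := by
  intro hPO hST h p hh hpp hhp
  have hp1 : 1 < p := hpp.one_lt
  have hpr : (1 : ℝ) ≤ p := by exact_mod_cast hp1.le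
  set q : ℝ := (p : ℝ) ^ h with hqdef
  have hq : 1 ≤ q := one_le_pow₀ hpr
  set W : ℝ := ∑ k ∈ Icc 1 h, (h : ℝ) ^ k * Real.exp 1 with hWdef
  have hhr : (1 : ℝ) ≤ h := by exact_mod_cast hh
  have he : (1 : ℝ) ≤ Real.exp 1 := Real.one_le_exp (by norm_num)
  have hW : 1 ≤ W := by
    have h1 : (h : ℝ) ^ 1 * Real.exp 1 ≤ W :=
      single_le_sum (f := fun k => (h : ℝ) ^ k * Real.exp 1) (fun k _ => by positivity) (mem_Icc.2 ⟨le_rfl, hh⟩)
    have h2 : 1 ≤ (h : ℝ) ^ 1 * Real.exp 1 := by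
      rw [pow_one]
      exact one_le_mul_of_one_le_of_one_le hhr he
    exact h2.trans h1
  set L : ℝ := Real.log W + Real.log q + 1 with hLdef
  have hlW : 0 ≤ Real.log W := Real.log_nonneg hW
  have hlq : 0 ≤ Real.log q := Real.log_nonneg hq
  have hL1 : 1 ≤ L := by rw [hLdef]; linarith
  have hstep : ∀ (j : ℕ) (v : ℕ → ℕ → ℕ), ∃ X : ℕ → ℕ → ℕ, Psi h p j v (lm L q j) ≤ q ^ j * W →
      Psi h p (j + 1) (nx h p j v X) (lm L q (j + 1)) ≤ q ^ (j + 1) * W := by
    intro j v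
    by_cases hI : Psi h p j v (lm L q j) ≤ q ^ j * W
    · obtain ⟨X, hX⟩ := hPO hST h p j hpp hhp v (fun k => bb L q k * ((j : ℝ) + 1) ^ (2 * k)) (lm L q j)
        (lm L q (j + 1)) (fun k hk cls n => card_le hp1 hW hLdef hI hk.le cls n) (by
          intro k hk
          obtain ⟨k', rfl⟩ : ∃ k', k = k' + 1 := ⟨k - 1, by have := (mem_Icc.1 hk).1; omega⟩
          have hb := one_le_bb hL1 hq k'
          have hj : (0 : ℝ) ≤ j := Nat.cast_nonneg _
          have hk0 : (0 : ℝ) ≤ k' := Nat.cast_nonneg _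
          refine ⟨lm_nonneg hL1 hq _ _, ?_, ?_⟩
          · rw [lm_succ, Nat.add_sub_cancel]
            push_cast
            rw [← hqdef]
            have hd : (0 : ℝ) < q ^ 2 * ((k' : ℝ) + 1) * bb L q k' * ((j : ℝ) + 1 + 1) ^ (2 * k' + 1) := by
              positivity
            rw [one_div, mul_assoc, inv_mul_le_iff₀ hd, mul_one]
            have e1 : ((j : ℝ) + 1) ^ (2 * k') ≤ ((j : ℝ) + 1 + 1) ^ (2 * k' + 1) := by
              refine (pow_le_pow_left₀ (by positivity) (by linarith : (j : ℝ) + 1 ≤ (j : ℝ) + 1 + 1) _).trans ?_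
              exact pow_le_pow_right₀ (by linarith) (by omega)
            calc q * (((k' : ℝ) + 1) * (bb L q k' * ((j : ℝ) + 1) ^ (2 * k')))
                = q * (((k' : ℝ) + 1) * bb L q k') * ((j : ℝ) + 1) ^ (2 * k') := by ring
              _ ≤ q ^ 2 * (((k' : ℝ) + 1) * bb L q k') * ((j : ℝ) + 1 + 1) ^ (2 * k' + 1) := by
                  refine mul_le_mul ?_ e1 (by positivity) (by positivity)
                  refine mul_le_mul_of_nonneg_right ?_ (by positivity)
                  nlinarith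
              _ = q ^ 2 * ((k' : ℝ) + 1) * bb L q k' * ((j : ℝ) + 1 + 1) ^ (2 * k' + 1) := by ring
          · rw [lm_succ, lm_succ, Nat.add_sub_cancel]
            push_cast
            rw [← hqdef]
            set a : ℝ := q ^ 2 * ((k' : ℝ) + 1) * bb L q k' with ha
            have ha0 : 0 < a := by positivity
            set x : ℝ := (j : ℝ) + 1 with hx
            have hx1 : 1 ≤ x := by rw [hx]; linarith
            have hx0 : 0 < x := by linarith
            have e0 : (1 / (a * (x + 1) ^ (2 * k' + 1))) ^ 2 * q ^ 2 * (((k' : ℝ) + 1) * (bb L q k' * x ^ (2 * k'))) =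
                (1 / (a * (x + 1) ^ (2 * k' + 1))) * (x ^ (2 * k') / (x + 1) ^ (2 * k' + 1)) := by
              have : q ^ 2 * (((k' : ℝ) + 1) * (bb L q k' * x ^ (2 * k'))) = a * x ^ (2 * k') := by
                rw [ha]; ring
              rw [mul_assoc, this]
              field_simp
            rw [e0]
            have e1 : x ^ (2 * k') / (x + 1) ^ (2 * k' + 1) ≤ 1 / (x + 1) := by
              rw [div_le_div_iff₀ (by positivity) (by positivity), one_mul, pow_succ]
              exact mul_le_mul_of_nonneg_right (pow_le_pow_left₀ hx0.le (by linarith) _) (by positivity)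
            have e2 : 1 + 1 / (x + 1) ≤ ((x + 1) / x) ^ (2 * k' + 1) := by
              have e3 : 1 ≤ (x + 1) / x := by
                rw [one_le_div hx0]; linarith
              have e4 : 1 + 1 / (x + 1) ≤ (x + 1) / x := by
                have : (x + 1) / x = 1 + 1 / x := by field_simp
                rw [this]
                have := one_div_le_one_div_of_le hx0 (by linarith : x ≤ x + 1)
                linarith
              exact e4.trans (le_self_pow₀ e3 (by omega))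
            have e5 : 0 < 1 / (a * (x + 1) ^ (2 * k' + 1)) := by positivity
            calc 1 / (a * (x + 1) ^ (2 * k' + 1)) + 1 / (a * (x + 1) ^ (2 * k' + 1)) * (x ^ (2 * k') / (x + 1) ^ (2 * k' + 1))
                = 1 / (a * (x + 1) ^ (2 * k' + 1)) * (1 + x ^ (2 * k') / (x + 1) ^ (2 * k' + 1)) := by ring
              _ ≤ 1 / (a * (x + 1) ^ (2 * k' + 1)) * ((x + 1) / x) ^ (2 * k' + 1) :=
                  mul_le_mul_of_nonneg_left (by linarith) e5.le
              _ = 1 / (a * x ^ (2 * k' + 1)) := by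
                  rw [div_pow]
                  field_simp)
      refine ⟨X, fun _ => hX.trans ?_⟩
      calc (p : ℝ) ^ h * Psi h p j v (lm L q j) ≤ q * (q ^ j * W) :=
            mul_le_mul_of_nonneg_left hI (by positivity)
        _ = q ^ (j + 1) * W := by ring
    · exact ⟨fun _ _ => 0, fun h1 => absurd h1 hI⟩
  choose Xf hXf using hstep
  let vv : ℕ → ℕ → ℕ → ℕ := fun j => Nat.rec (fun _ _ => 0) (fun j v => nx h p j v (Xf j v)) j
  have hvs : ∀ j, vv (j + 1) = nx h p j (vv j) (Xf j (vv j)) := fun j => rfl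
  have hInv : ∀ j, Psi h p j (vv j) (lm L q j) ≤ q ^ j * W := by
    intro j
    induction j with
    | zero =>
      rw [pow_zero, one_mul]
      exact psi_zero hL1 hq
    | succ j ih =>
      rw [hvs]
      exact hXf j (vv j) ih
  refine ⟨⟨vv, fun j => Xf j (vv j), fun i m => rfl, hvs, ∑ k ∈ range (h + 1), bb L q k, 2 * h, ?_⟩⟩
  intro j k hk cls n
  have h1 := card_le hp1 hW hLdef (hInv j) hk cls n
  have hj : (0 : ℝ) ≤ j := Nat.cast_nonneg _
  refine h1.trans (mul_le_mul ?_ (pow_le_pow_right₀ (by linarith) (by omega)) (by positivity) ?_)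
  · exact single_le_sum (f := fun k => bb L q k) (fun k _ => by have := one_le_bb hL1 hq k; linarith)
      (mem_range.2 (by omega))
  · exact sum_nonneg fun k _ => by have := one_le_bb hL1 hq k; linarith

end Pool.Agent.T2h22.TB
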