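import Pool.Agent.T2h22.TB.Stm

set_option autoImplicit false

open Finset

namespace Pool.Agent.T2h22.TB

namespace POa

lemma sum_mod (a b : ℕ) (g : ℕ → ℝ) :
    ∑ n ∈ range (a * b), g (n % a) = b * ∑ n ∈ range a, g n := by
  induction b with
  | zero => simp
  | succ b ih =>
    rw [mul_add, mul_one, sum_range_add, ih]
    have : ∑ x ∈ range a, g ((a * b + x) % a) = ∑ x ∈ range a, g x := by
      refine sum_congr rfl fun x hx => ?_
      rw [Nat.mul_add_mod, Nat.mod_eq_of_lt (mem_range.1 hx)]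
    rw [this]
    push_cast
    ring

lemma SO_mod (h p j : ℕ) (v : ℕ → ℕ → ℕ) {k : ℕ} (cls : Fin k → Fin h) (n : ℕ) :
    SO h p j v cls n = SO h p j v cls (n % (p ^ h) ^ j) := by
  unfold SO
  refine filter_congr fun s _ => ?_
  unfold Nat.ModEq
  rw [Nat.mod_mod]

end POa

open POa in
theorem t_PO : T_PO := by
  intro hST h p j hp hhp v D0 lam lam' hD hl
  have hHX : Nonempty (HX h p j) := by
    have : 0 < p ^ h := pow_pos hp.pos h
    exact ⟨fun _ => ⟨0, this⟩⟩
  have hcardpos : (0 : ℝ) < Fintype.card (HX h p j) := by exact_mod_cast Fintype.card_pos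
  have hmain : ∑ X : HX h p j, Psi h p (j + 1) (nx h p j v (ex X)) lam' ≤
      ∑ X : HX h p j, (p : ℝ) ^ h * Psi h p j v lam := by
    unfold Psi
    rw [sum_comm, sum_const, card_univ, nsmul_eq_mul, mul_sum, mul_sum]
    refine sum_le_sum fun k hk => ?_
    obtain ⟨hl0, hl1, hl2⟩ := hl k hk
    rw [mem_Icc] at hk
    obtain ⟨k', rfl⟩ : ∃ k', k = k' + 1 := ⟨k - 1, by omega⟩
    rw [sum_comm, mul_sum, mul_sum]
    refine sum_le_sum fun cls _ => ?_
    rw [sum_comm]
    have hkey : ∀ n : ℕ, ∑ X : HX h p j,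
        Real.exp (lam' (k' + 1) * ((SO h p (j + 1) (nx h p j v (ex X)) cls n).card : ℝ)) ≤
        (Fintype.card (HX h p j) : ℝ) *
          Real.exp (lam (k' + 1) * ((SO h p j v cls (n % (p ^ h) ^ j)).card : ℝ)) := by
      intro n
      have hst := hST h p j hp hhp v k' (by omega) (D0 k') (lam' (k' + 1))
        (fun cls n => hD k' (by omega) cls n) hl0 (by
          have := hl1
          simp only [Nat.add_sub_cancel] at this
          push_cast at this
          exact this) cls n
      refine hst.trans (mul_le_mul_of_nonneg_left (Real.exp_le_exp.2 ?_) hcardpos.le)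
      rw [← SO_mod]
      refine mul_le_mul_of_nonneg_right ?_ (Nat.cast_nonneg _)
      have := hl2
      simp only [Nat.add_sub_cancel] at this
      push_cast at this
      exact this
    calc ∑ n ∈ range ((p ^ h) ^ (j + 1)), ∑ X : HX h p j,
          Real.exp (lam' (k' + 1) * ((SO h p (j + 1) (nx h p j v (ex X)) cls n).card : ℝ))
        ≤ ∑ n ∈ range ((p ^ h) ^ (j + 1)), (Fintype.card (HX h p j) : ℝ) *
            Real.exp (lam (k' + 1) * ((SO h p j v cls (n % (p ^ h) ^ j)).card : ℝ)) :=
          sum_le_sum fun n _ => hkey n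
      _ = (Fintype.card (HX h p j) : ℝ) * ((p : ℝ) ^ h * ∑ n ∈ range ((p ^ h) ^ j),
            Real.exp (lam (k' + 1) * ((SO h p j v cls n).card : ℝ))) := by
          rw [← mul_sum, pow_succ (p ^ h) j,
            sum_mod ((p ^ h) ^ j) (p ^ h) (fun n =>
              Real.exp (lam (k' + 1) * ((SO h p j v cls n).card : ℝ)))]
          push_cast
          rfl
  obtain ⟨X, -, hX⟩ := exists_le_of_sum_le (univ_nonempty (α := HX h p j)) hmain
  exact ⟨ex X, hX⟩

end Pool.Agent.T2h22.TB
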