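import Mathlib

/-! Thin bases of order `h` with a polylogarithmic representation function (`MP_d5a1e1_nt`):
definitions and statements of the parts. -/

set_option autoImplicit false
set_option linter.unusedVariables false

open Finset

namespace Pool.Agent.T2h22.TB

/-! ## Definitions

`q = p ^ h`, `p` a prime `> h`. A string of length `j` over `{0, ..., p - 1}` is coded by a number
`m < p ^ j`; its first `j` digits are `m % p ^ j`, its top digit is `m / p ^ j` (if `m < p ^ (j + 1)`).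
`v i m` is the value (a number `< q ^ j`) of the string `m` for the class `i < h`. -/

/-- the values at the next level; `X i m` is the shift (hash value) after the string `m` -/
def nx (h p j : ℕ) (v X : ℕ → ℕ → ℕ) (i m : ℕ) : ℕ :=
  v i (m % p ^ j) + (p ^ h) ^ j * ((p ^ i * (m / p ^ j) + X i (m % p ^ j)) % p ^ h)

/-- the `k`-tuples of strings of length `j` whose values (for the classes `cls`) have the sum `n`
modulo `q ^ j` -/
def SO (h p j : ℕ) (v : ℕ → ℕ → ℕ) {k : ℕ} (cls : Fin k → Fin h) (n : ℕ) : Finset (Fin k → ℕ) :=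
  (Fintype.piFinset fun _ : Fin k => range (p ^ j)).filter fun s =>
    (∑ i, v (cls i) (s i)) ≡ n [MOD (p ^ h) ^ j]

/-- the space of the hash functions of one level -/
abbrev HX (h p j : ℕ) : Type := Fin h × Fin (p ^ j) → Fin (p ^ h)

/-- as a function on the natural numbers -/
def ex {h p j : ℕ} (X : HX h p j) (i m : ℕ) : ℕ :=
  if H : i < h ∧ m < p ^ j then (X (⟨i, H.1⟩, ⟨m, H.2⟩) : ℕ) else 0

/-- the potential -/
noncomputable def Psi (h p j : ℕ) (v : ℕ → ℕ → ℕ) (lam : ℕ → ℝ) : ℝ :=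
  ∑ k ∈ Icc 1 h, ∑ cls : Fin k → Fin h, ∑ n ∈ range ((p ^ h) ^ j),
    Real.exp (lam k * ((SO h p j v cls n).card : ℝ))

/-- the system of values -/
structure Sys (h p : ℕ) where
  v : ℕ → ℕ → ℕ → ℕ
  X : ℕ → ℕ → ℕ → ℕ
  v0 : ∀ i m, v 0 i m = 0
  vs : ∀ j, v (j + 1) = nx h p j (v j) (X j)
  B : ℝ
  E : ℕ
  bd : ∀ j k, k ≤ h → ∀ (cls : Fin k → Fin h) (n : ℕ),
    ((SO h p j (v j) cls n).card : ℝ) ≤ B * ((j : ℝ) + 1) ^ E

/-- the basis: all `v j i m + q ^ j t` with `1 ≤ t < 2 h q` -/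
def SA {h p : ℕ} (S : Sys h p) : Set ℕ :=
  {a | ∃ j i m t : ℕ, i < h ∧ m < p ^ j ∧ 1 ≤ t ∧ t < 2 * h * p ^ h ∧
    a = S.v j i m + (p ^ h) ^ j * t}

/-! ## Statements of the parts -/

/-- Exponential moments of sums of functions with few common variables.
Proof: strong induction on `S.card`. If `S` is empty, clear. Else take `s₀ ∈ S` and `v ∈ supp s₀`, and
`S₁ = {s ∈ S | v ∈ supp s}` (nonempty). `∑_X F X = |G|⁻¹ ∑_X ∑_g F (update X v g)`. The `f s`,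
`s ∈ S \ S₁`, do not depend on `X v`. For `S₁`: `y g = λ ∑_{s ∈ S₁} f s (update X v g)` is in
`[0, λ M |S₁|] ⊆ [0, 1]`, `exp y ≤ 1 + y + y²` there, `∑_g y g ≤ |G| λ |S₁|` by (c) and
`(y g)² ≤ λ² M² |S₁|² ≤ λ² M² D |S₁|`; so `|G|⁻¹ ∑_g exp (y g) ≤ exp ((λ + λ² M² D) |S₁|)`. -/
def T_E : Prop := ∀ (V G ι : Type) [Fintype V] [DecidableEq V] [Fintype G] [Nonempty G]
  (S : Finset ι) (f : ι → (V → G) → ℝ) (supp : ι → Finset V) (M D lam : ℝ),
  (∀ s ∈ S, (supp s).Nonempty) →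
  (∀ s ∈ S, ∀ X, 0 ≤ f s X ∧ f s X ≤ M) →
  (∀ s ∈ S, ∀ X X' : V → G, (∀ v ∈ supp s, X v = X' v) → f s X = f s X') →
  (∀ s ∈ S, ∀ v ∈ supp s, ∀ X : V → G, ∑ g : G, f s (Function.update X v g) ≤ Fintype.card G) →
  (∀ v : V, ((S.filter fun s => v ∈ supp s).card : ℝ) ≤ D) →
  0 ≤ lam → lam * M * D ≤ 1 →
  ∑ X : V → G, Real.exp (lam * ∑ s ∈ S, f s X) ≤
    (Fintype.card G : ℝ) ^ Fintype.card V * Real.exp ((lam + lam ^ 2 * M ^ 2 * D) * S.card)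

/-- The number of solutions at the next level is the sum, over the solutions `s` at level `j`, of
the number of the digits `e : Fin k → {0, ..., p - 1}` with
`∑ p ^ (cls i) e i + ∑ X (cls i) (s i) + w s ≡ 0 mod q`, where `∑ v (cls i) (s i) - n = q ^ j w s`
(an integer). Proof: the map `s ↦ (s % p ^ j, s / p ^ j)`. -/
def T_CH : Prop := ∀ (h p j : ℕ), 1 < p → ∀ (v : ℕ → ℕ → ℕ) (k : ℕ) (cls : Fin k → Fin h) (n : ℕ),
  ∃ w : (Fin k → ℕ) → ℤ, ∀ X : ℕ → ℕ → ℕ,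
    (SO h p (j + 1) (nx h p j v X) cls n).card = ∑ s ∈ SO h p j v cls n,
      ((Fintype.piFinset fun _ : Fin k => range p).filter fun e : Fin k → ℕ =>
        ((p ^ h : ℕ) : ℤ) ∣ (∑ i, ((p ^ (cls i : ℕ) * e i : ℕ) : ℤ)) +
          (∑ i, ((X (cls i) (s i) : ℕ) : ℤ)) + w s).card

/-- One shift is uniform: the average over the value `g` of the hash function at `(i₀, m₀)` of the
number of the digits. `c` is the number of the `i` with `(cls i, s i) = (i₀, m₀)`, `1 ≤ c ≤ h < p`,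
so for every `e` exactly one `g` modulo `q` satisfies the congruence. -/
def T_UN : Prop := ∀ (h p : ℕ), p.Prime → h < p → ∀ (c : ℕ), 1 ≤ c → c ≤ h → ∀ a : ℤ,
  ((univ : Finset (Fin (p ^ h))).filter fun g : Fin (p ^ h) =>
    ((p ^ h : ℕ) : ℤ) ∣ (c : ℤ) * ((g : ℕ) : ℤ) + a).card = 1

/-- The number of the solutions containing a given string in a given class. Proof: the string is at
one of the `k + 1` places `a`; remove it (`Fin.succAbove`); the remaining `k`-tuple is a solution for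
`cls ∘ a.succAbove` and the target `n + v i₀ m₀ * (q ^ j - 1)`. -/
def T_DEG : Prop := ∀ (h p j : ℕ), 1 < p → ∀ (v : ℕ → ℕ → ℕ) (k : ℕ) (D0 : ℝ),
  (∀ (cls : Fin k → Fin h) (n : ℕ), ((SO h p j v cls n).card : ℝ) ≤ D0) →
  ∀ (cls : Fin (k + 1) → Fin h) (n i₀ m₀ : ℕ),
    (((SO h p j v cls n).filter fun s => ∃ a, (cls a : ℕ) = i₀ ∧ s a = m₀).card : ℝ) ≤
      ((k : ℝ) + 1) * D0

/-- One level, one pattern (from `T_E`, `T_CH`, `T_UN`, `T_DEG`): `V = Fin h × Fin (p ^ j)`,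
`G = Fin (p ^ h)`, `S = SO h p j v cls n`, `supp s` the set of the `(cls i, s i)`, `f s X` the
cardinality in `T_CH`, `M = p ^ h`, `D = (k + 1) D0`. -/
def T_ST : Prop := ∀ (h p j : ℕ), p.Prime → h < p → ∀ (v : ℕ → ℕ → ℕ) (k : ℕ), k + 1 ≤ h →
  ∀ (D0 lam : ℝ),
  (∀ (cls : Fin k → Fin h) (n : ℕ), ((SO h p j v cls n).card : ℝ) ≤ D0) →
  0 ≤ lam → lam * (p : ℝ) ^ h * (((k : ℝ) + 1) * D0) ≤ 1 →
  ∀ (cls : Fin (k + 1) → Fin h) (n : ℕ),
  ∑ X : HX h p j, Real.exp (lam * ((SO h p (j + 1) (nx h p j v (ex X)) cls n).card : ℝ)) ≤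
    (Fintype.card (HX h p j) : ℝ) *
      Real.exp ((lam + lam ^ 2 * ((p : ℝ) ^ h) ^ 2 * (((k : ℝ) + 1) * D0)) *
        ((SO h p j v cls n).card : ℝ))

/-- One level, all patterns: a good hash function exists. Average `Psi` over all hash functions with
`T_ST` (`k - 1` instead of `k`); the cardinality of `SO h p j v cls n` depends only on
`n % q ^ j`, so the sum over `n < q ^ (j + 1)` is `q` times the sum over `n < q ^ j`. -/
def T_PO : Prop := T_ST → ∀ (h p j : ℕ), p.Prime → h < p → ∀ (v : ℕ → ℕ → ℕ) (D0 lam lam' : ℕ → ℝ),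
  (∀ k < h, ∀ (cls : Fin k → Fin h) (n : ℕ), ((SO h p j v cls n).card : ℝ) ≤ D0 k) →
  (∀ k ∈ Icc 1 h, 0 ≤ lam' k ∧ lam' k * (p : ℝ) ^ h * ((k : ℝ) * D0 (k - 1)) ≤ 1 ∧
    lam' k + lam' k ^ 2 * ((p : ℝ) ^ h) ^ 2 * ((k : ℝ) * D0 (k - 1)) ≤ lam k) →
  ∃ X : ℕ → ℕ → ℕ, Psi h p (j + 1) (nx h p j v X) lam' ≤ (p : ℝ) ^ h * Psi h p j v lam

/-- The system exists. `Λ = log (∑_{k=1}^h h ^ k e) + log q + 1`, `b 0 = 1`,
`b k = Λ q² k b (k - 1)`, `c k = 1 / (q² k b (k - 1))`, `lam_j k = c k / (j + 1) ^ (2 k - 1)`,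
`D0 k = b k (j + 1) ^ (2 k)`; invariant `Psi h p j (v j) lam_j ≤ q ^ j ∑_{k=1}^h h ^ k e`. It gives
`card ≤ (j Λ + Λ) / lam_j k = b k (j + 1) ^ (2 k)` for `1 ≤ k ≤ h` (for `k = 0` the cardinality is at
most `1`). `B = max_k b k`, `E = 2 h`. -/
def T_HA : Prop := T_PO → T_ST → ∀ (h p : ℕ), 1 ≤ h → p.Prime → h < p → Nonempty (Sys h p)

/-- The values are `< q ^ j`, and compatible (induction on `j`, and on `l ≥ j`). -/
def T_VA : Prop := ∀ (h p : ℕ) (hp : 1 < p) (S : Sys h p),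
  (∀ j i m, S.v j i m < (p ^ h) ^ j) ∧
  (∀ j l i m, j ≤ l → m < p ^ l → S.v l i m ≡ S.v j i (m % p ^ j) [MOD (p ^ h) ^ j])

/-- One string for every class: all residues are sums. Induction on `j`; at each level the digits of
a residue modulo `p ^ h` in base `p`. -/
def T_CO : Prop := ∀ (h p : ℕ) (hp : 1 < p) (S : Sys h p) (j n : ℕ),
  ∃ m : Fin h → ℕ, (∀ i, m i < p ^ j) ∧ (∑ i : Fin h, S.v j i (m i)) ≡ n [MOD (p ^ h) ^ j]

/-- The basis property: for `2 h q ^ j ≤ n < 2 h q ^ (j + 1)` use `T_CO`,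
`n - ∑ v = q ^ j M` with `h ≤ M < 2 h q`; the tops are `M - (h - 1), 1, ..., 1`. -/
def T_BA : Prop := T_VA → T_CO → ∀ (h p : ℕ) (hh : 1 ≤ h) (hp : 1 < p) (S : Sys h p) (n : ℕ),
  2 * h ≤ n → ∃ a : Fin h → ℕ, (∀ i, a i ∈ SA S) ∧ ∑ i, a i = n

/-- The basis is thin. -/
def T_TH : Prop := T_VA → ∀ (h p : ℕ) (hh : 1 ≤ h) (hp : 1 < p) (S : Sys h p),
  ∃ C : ℝ, ∀ x : ℕ, 1 ≤ x →
    (({a | a ∈ SA S ∧ a ≤ x} : Set ℕ).ncard : ℝ) ≤ C * (x : ℝ) ^ (1 / (h : ℝ))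

/-- Tuples of strings of different lengths with a given sum of the values. Induction on `k`: let `a`
be a place with the smallest length `j a`; the tuple of the `m i % p ^ (j a)` is in
`SO h p (j a) (S.v (j a)) cls n`, so `m a` takes at most `B (j a + 1) ^ E` values, and for each of
them the other strings solve the problem for `k - 1`. -/
def T_MI : Prop := T_VA → ∀ (h p : ℕ) (hp : 1 < p) (S : Sys h p) (J k : ℕ), k ≤ h →
  ∀ (cls : Fin k → Fin h) (j : Fin k → ℕ), (∀ i, j i ≤ J) → ∀ n : ℕ,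
  (((Fintype.piFinset fun i : Fin k => range (p ^ (j i))).filter fun m =>
    ∑ i, S.v (j i) (cls i) (m i) = n).card : ℝ) ≤ (max 1 S.B * ((J : ℝ) + 1) ^ S.E) ^ k

/-- The representation function. The tuples `a` with the sum `n` are given by the lengths
`j i ≤ Nat.log 2 n`, the classes, the tops `t i < 2 h q` and the strings; `T_MI`. -/
def T_UP : Prop := T_VA → T_MI → ∀ (h p : ℕ) (hh : 1 ≤ h) (hp : 1 < p) (S : Sys h p),
  ∃ (C : ℝ) (E : ℕ), ∀ n : ℕ, 2 ≤ n →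
    (({a : Fin h → ℕ | (∀ i, a i ∈ SA S) ∧ ∑ i, a i = n} : Set (Fin h → ℕ)).ncard : ℝ) ≤
      C * Real.log n ^ E

/-- The final theorem. -/
def T_FI : Prop := ∀ h : ℕ, 2 ≤ h → ∃ A : Set ℕ,
  (∀ n : ℕ, 2 * h ≤ n → ∃ a : Fin h → ℕ, (∀ i, a i ∈ A) ∧ ∑ i, a i = n) ∧
  (∃ C : ℝ, ∀ x : ℕ, 1 ≤ x →
    (({a | a ∈ A ∧ a ≤ x} : Set ℕ).ncard : ℝ) ≤ C * (x : ℝ) ^ (1 / (h : ℝ))) ∧
  ∃ (C : ℝ) (E : ℕ), ∀ n : ℕ, 2 ≤ n →
    (({a : Fin h → ℕ | Monotone a ∧ (∀ i, a i ∈ A) ∧ ∑ i, a i = n} : Set (Fin h → ℕ)).ncard : ℝ) ≤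
      C * Real.log n ^ E

end Pool.Agent.T2h22.TB
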