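import Pool.Agent.T2h22.TB.Stm

/-! Project TB: task TH. -/

set_option autoImplicit false

open Finset

namespace Pool.Agent.T2h22.TB

theorem t_TH : T_TH := by
  classical
  intro hVA h p hh hp S
  set q : ℕ := p ^ h with hq
  have hq2 : 2 ≤ q := by
    calc 2 ≤ p := hp
      _ = p ^ 1 := (pow_one p).symm
      _ ≤ p ^ h := Nat.pow_le_pow_right (by omega) hh
  refine ⟨(h : ℝ) * (2 * h * q) * p, fun x hx => ?_⟩
  set J : ℕ := Nat.log q x with hJ
  have hJx : q ^ J ≤ x := Nat.pow_log_le_self q (by omega)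
  set T : Finset ℕ := (range (J + 1)).biUnion fun j =>
    (range h ×ˢ range (p ^ j) ×ˢ range (2 * h * q)).image fun y => S.v j y.1 y.2.1 + q ^ j * y.2.2 with hT
  have hsub : ({a | a ∈ SA S ∧ a ≤ x} : Set ℕ) ⊆ (T : Set ℕ) := by
    rintro a ⟨⟨j, i, m, t, hi, hm, ht1, ht2, rfl⟩, hax⟩
    rw [Finset.mem_coe, hT, Finset.mem_biUnion]
    have h1 : q ^ j ≤ x := by
      calc q ^ j = q ^ j * 1 := (mul_one _).symm
        _ ≤ q ^ j * t := Nat.mul_le_mul_left _ ht1
        _ ≤ S.v j i m + q ^ j * t := Nat.le_add_left _ _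
        _ ≤ x := hax
    have h2 : j ≤ J := (Nat.le_log_iff_pow_le (by omega) (by omega)).2 h1
    refine ⟨j, Finset.mem_range.2 (Nat.lt_succ_of_le h2), Finset.mem_image.2 ⟨(i, m, t), ?_, rfl⟩⟩
    rw [Finset.mem_product, Finset.mem_product]
    exact ⟨Finset.mem_range.2 hi, Finset.mem_range.2 hm, Finset.mem_range.2 ht2⟩
  have hTc : T.card ≤ h * (2 * h * q) * p ^ (J + 1) := by
    have h1 : T.card ≤ ∑ j ∈ range (J + 1), h * (p ^ j * (2 * h * q)) := by
      refine Finset.card_biUnion_le.trans (Finset.sum_le_sum fun j _ => Finset.card_image_le.trans ?_)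
      rw [Finset.card_product, Finset.card_product, Finset.card_range, Finset.card_range, Finset.card_range]
    refine h1.trans ?_
    have h2 : ∑ j ∈ range (J + 1), p ^ j ≤ p ^ (J + 1) :=
      (Nat.geomSum_lt hp fun k hk => Finset.mem_range.1 hk).le
    calc ∑ j ∈ range (J + 1), h * (p ^ j * (2 * h * q)) = h * (2 * h * q) * ∑ j ∈ range (J + 1), p ^ j := by
          rw [Finset.mul_sum]
          exact Finset.sum_congr rfl fun j _ => by ring
      _ ≤ _ := Nat.mul_le_mul_left _ h2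
  have hnc : ({a | a ∈ SA S ∧ a ≤ x} : Set ℕ).ncard ≤ T.card := by
    rw [← Set.ncard_coe_finset]
    exact Set.ncard_le_ncard hsub (Finset.finite_toSet _)
  have hpJ : (p : ℝ) ^ J ≤ (x : ℝ) ^ (1 / (h : ℝ)) := by
    have h1 : ((p : ℝ) ^ J) ^ h ≤ x := by
      rw [← pow_mul, mul_comm, pow_mul]
      exact_mod_cast hJx
    have hh0 : (h : ℝ) ≠ 0 := by
      have : h ≠ 0 := by omega
      exact_mod_cast this
    calc (p : ℝ) ^ J = (((p : ℝ) ^ J) ^ h) ^ (1 / (h : ℝ)) := by
          rw [← Real.rpow_natCast (((p : ℝ) ^ J)) h, ← Real.rpow_mul (by positivity), mul_one_div_cancel hh0,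
            Real.rpow_one]
      _ ≤ _ := Real.rpow_le_rpow (by positivity) h1 (by positivity)
  calc _ ≤ (T.card : ℝ) := by exact_mod_cast hnc
    _ ≤ ((h * (2 * h * q) * p ^ (J + 1) : ℕ) : ℝ) := by exact_mod_cast hTc
    _ = (h : ℝ) * (2 * h * q) * p * (p : ℝ) ^ J := by
        push_cast
        ring
    _ ≤ _ := mul_le_mul_of_nonneg_left hpJ (by positivity)

end Pool.Agent.T2h22.TB
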