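import Pool.Agent.T2h22.TB.Stm

set_option autoImplicit false

open Finset

namespace Pool.Agent.T2h22.TB

theorem t_UN : T_UN := by
  intro h p hp hhp c hc hch a
  have hq : 0 < p ^ h := pow_pos hp.pos h
  have hcop : Nat.Coprime c (p ^ h) := by
    apply Nat.Coprime.pow_right
    rw [Nat.coprime_comm]
    exact (Nat.Prime.coprime_iff_not_dvd hp).2 (fun hd => by
      have := Nat.le_of_dvd hc hd
      omega)
  have hcopZ : IsCoprime (c : ℤ) ((p ^ h : ℕ) : ℤ) := Nat.isCoprime_iff_coprime.2 hcop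
  obtain ⟨u, w, huw⟩ := hcopZ
  -- the solution
  set q : ℤ := ((p ^ h : ℕ) : ℤ) with hqdef
  have hqpos : 0 < q := by rw [hqdef]; exact_mod_cast hq
  have hr0 : 0 ≤ (-(u * a)) % q := Int.emod_nonneg _ hqpos.ne'
  have hr1 : (-(u * a)) % q < q := Int.emod_lt_of_pos _ hqpos
  obtain ⟨g0, hg0⟩ := Int.eq_ofNat_of_zero_le hr0
  have hg0lt : g0 < p ^ h := by
    have : (g0 : ℤ) < ((p ^ h : ℕ) : ℤ) := by rw [← hg0]; exact hr1
    exact_mod_cast this
  rw [Finset.card_eq_one]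
  refine ⟨⟨g0, hg0lt⟩, ?_⟩
  ext g
  simp only [Finset.mem_filter, Finset.mem_univ, true_and, Finset.mem_singleton]
  constructor
  · intro hg
    -- q ∣ c g + a, hence q ∣ g + u a
    have h1 : q ∣ ((g : ℕ) : ℤ) + u * a := by
      have h2 : q ∣ u * ((c : ℤ) * ((g : ℕ) : ℤ) + a) := Dvd.dvd.mul_left hg _
      have h3 : ((g : ℕ) : ℤ) + u * a = u * ((c : ℤ) * ((g : ℕ) : ℤ) + a) + (w * ((g : ℕ) : ℤ)) * q := by
        linear_combination (-((g : ℕ) : ℤ)) * huw
      rw [h3]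
      exact dvd_add h2 (Dvd.intro_left _ rfl)
    have h4 : ((g : ℕ) : ℤ) ≡ (g0 : ℤ) [ZMOD q] := by
      rw [← hg0]
      have h5 : ((g : ℕ) : ℤ) ≡ -(u * a) [ZMOD q] := by
        rw [Int.modEq_comm, Int.modEq_iff_dvd]
        simpa using h1
      exact h5.trans (Int.mod_modEq _ _).symm
    have h6 : ((g : ℕ) : ℤ) = (g0 : ℤ) := by
      have e1 : ((g : ℕ) : ℤ) % q = ((g : ℕ) : ℤ) := Int.emod_eq_of_lt (by positivity)
        (by rw [hqdef]; exact_mod_cast g.2)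
      have e2 : (g0 : ℤ) % q = (g0 : ℤ) := Int.emod_eq_of_lt (by positivity)
        (by rw [hqdef]; exact_mod_cast hg0lt)
      have := h4
      unfold Int.ModEq at this
      rw [e1, e2] at this
      exact this
    apply Fin.ext
    exact_mod_cast h6
  · rintro rfl
    show q ∣ (c : ℤ) * ((g0 : ℕ) : ℤ) + a
    have h5 : (g0 : ℤ) ≡ -(u * a) [ZMOD q] := by rw [← hg0]; exact Int.mod_modEq _ _
    have h6 : q ∣ -(u * a) - (g0 : ℤ) := Int.modEq_iff_dvd.1 h5
    have h7 : (c : ℤ) * (g0 : ℤ) + a = -(c : ℤ) * (-(u * a) - (g0 : ℤ)) + (w * a) * q := by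
      linear_combination (-a) * huw
    rw [h7]
    exact dvd_add (Dvd.dvd.mul_left h6 _) (Dvd.intro_left _ rfl)

end Pool.Agent.T2h22.TB
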