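import Pool.Agent.T2h22.TB.Stm

/-! Project TB: task UP. -/

set_option autoImplicit false

open Finset

namespace Pool.Agent.T2h22.TB

theorem up_log (n : ℕ) (hn : 2 ≤ n) : ((Nat.log 2 n : ℕ) : ℝ) + 1 ≤ 3 * Real.log n := by
  have hn0 : (0 : ℝ) < n := by
    have : 0 < n := by omega
    exact_mod_cast this
  have h1 : (2 : ℝ) ^ Nat.log 2 n ≤ n := by
    exact_mod_cast Nat.pow_log_le_self 2 (by omega : n ≠ 0)
  have h2 : (Nat.log 2 n : ℝ) * Real.log 2 ≤ Real.log n := by
    rw [← Real.log_pow]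
    exact Real.log_le_log (by positivity) h1
  have h3 : Real.log 2 ≤ Real.log n := Real.log_le_log (by norm_num) (by exact_mod_cast hn)
  have h4 : (0.69 : ℝ) < Real.log 2 := by
    have := Real.log_two_gt_d9
    linarith
  have h5 : (0 : ℝ) ≤ Nat.log 2 n := Nat.cast_nonneg _
  nlinarith

theorem t_UP : T_UP := by
  classical
  intro hVA hMI h p hh hp S
  set q : ℕ := p ^ h with hq
  have hq2 : 2 ≤ q := by
    calc 2 ≤ p := hp
      _ = p ^ 1 := (pow_one p).symm
      _ ≤ p ^ h := Nat.pow_le_pow_right (by omega) hh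
  refine ⟨3 ^ h * ((h : ℝ) ^ h * (2 * (h : ℝ) * q) ^ h) * ((max 1 S.B) ^ h * (3 ^ S.E) ^ h), h + S.E * h,
    fun n hn => ?_⟩
  set J : ℕ := Nat.log 2 n with hJ
  set P : Finset ((Fin h → ℕ) × (Fin h → Fin h) × (Fin h → ℕ)) :=
    (Fintype.piFinset fun _ : Fin h => range (J + 1)) ×ˢ (univ : Finset (Fin h → Fin h)) ×ˢ
      (Fintype.piFinset fun _ : Fin h => range (2 * h * q)) with hP
  set M : (Fin h → ℕ) × (Fin h → Fin h) × (Fin h → ℕ) → Finset (Fin h → ℕ) := fun x =>
    (Fintype.piFinset fun i : Fin h => range (p ^ (x.1 i))).filter fun m =>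
      ∑ i, S.v (x.1 i) (x.2.1 i) (m i) = n - ∑ i, q ^ (x.1 i) * x.2.2 i with hM
  set T : Finset (Fin h → ℕ) := P.biUnion fun x =>
    (M x).image fun m i => S.v (x.1 i) (x.2.1 i) (m i) + q ^ (x.1 i) * x.2.2 i with hT
  have hsub : {a : Fin h → ℕ | (∀ i, a i ∈ SA S) ∧ ∑ i, a i = n} ⊆ (T : Set (Fin h → ℕ)) := by
    rintro a ⟨ha, hsum⟩
    choose j c m t hc hm ht1 ht2 hat using ha
    rw [Finset.mem_coe, hT, Finset.mem_biUnion]
    have hj : ∀ i, j i ≤ J := by
      intro i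
      have h1 : q ^ (j i) ≤ n := by
        calc q ^ (j i) = q ^ (j i) * 1 := (mul_one _).symm
          _ ≤ q ^ (j i) * t i := Nat.mul_le_mul_left _ (ht1 i)
          _ ≤ a i := by
              rw [hat i]
              exact Nat.le_add_left _ _
          _ ≤ n := by
              rw [← hsum]
              exact Finset.single_le_sum (f := a) (fun _ _ => Nat.zero_le _) (Finset.mem_univ i)
      have h2 : 2 ^ (j i) ≤ n := (Nat.pow_le_pow_left hq2 _).trans h1
      exact (Nat.le_log_iff_pow_le (by norm_num) (by omega)).2 h2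
    refine ⟨(j, (fun i => ⟨c i, hc i⟩), t), ?_, ?_⟩
    · rw [hP, Finset.mem_product, Finset.mem_product]
      refine ⟨Fintype.mem_piFinset.2 fun i => Finset.mem_range.2 (Nat.lt_succ_of_le (hj i)), Finset.mem_univ _,
        Fintype.mem_piFinset.2 fun i => Finset.mem_range.2 (ht2 i)⟩
    · rw [Finset.mem_image]
      refine ⟨m, ?_, ?_⟩
      · rw [hM]
        refine Finset.mem_filter.2 ⟨Fintype.mem_piFinset.2 fun i => Finset.mem_range.2 (hm i), ?_⟩
        have h3 : ∑ i, a i = ∑ i, S.v (j i) (c i) (m i) + ∑ i, q ^ (j i) * t i := by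
          rw [← Finset.sum_add_distrib]
          exact Finset.sum_congr rfl fun i _ => hat i
        show ∑ i, S.v (j i) (c i) (m i) = n - ∑ i, q ^ (j i) * t i
        omega
      · funext i
        exact (hat i).symm
  have hPc : P.card = (J + 1) ^ h * (h ^ h * (2 * h * q) ^ h) := by
    rw [hP, Finset.card_product, Finset.card_product, Fintype.card_piFinset_const, Fintype.card_piFinset_const,
      Finset.card_range, Finset.card_range, Finset.card_univ, Fintype.card_fun, Fintype.card_fin]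
  have hMc : ∀ x ∈ P, ((M x).card : ℝ) ≤ (max 1 S.B * ((J : ℝ) + 1) ^ S.E) ^ h := by
    intro x hx
    rw [hP, Finset.mem_product] at hx
    refine hMI hVA h p hp S J h le_rfl x.2.1 x.1 (fun i => ?_) _
    exact Nat.le_of_lt_succ (Finset.mem_range.1 (Fintype.mem_piFinset.1 hx.1 i))
  have hTc : (T.card : ℝ) ≤ P.card * (max 1 S.B * ((J : ℝ) + 1) ^ S.E) ^ h := by
    have h1 : T.card ≤ ∑ x ∈ P, (M x).card :=
      Finset.card_biUnion_le.trans (Finset.sum_le_sum fun x _ => Finset.card_image_le)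
    calc (T.card : ℝ) ≤ ((∑ x ∈ P, (M x).card : ℕ) : ℝ) := by exact_mod_cast h1
      _ = ∑ x ∈ P, ((M x).card : ℝ) := by push_cast; rfl
      _ ≤ ∑ x ∈ P, (max 1 S.B * ((J : ℝ) + 1) ^ S.E) ^ h := Finset.sum_le_sum hMc
      _ = _ := by rw [Finset.sum_const, nsmul_eq_mul]
  have hnc : ({a : Fin h → ℕ | (∀ i, a i ∈ SA S) ∧ ∑ i, a i = n} : Set (Fin h → ℕ)).ncard ≤ T.card := by
    rw [← Set.ncard_coe_finset]
    exact Set.ncard_le_ncard hsub (Finset.finite_toSet _)
  have hL := up_log n hn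
  rw [← hJ] at hL
  have hJ0 : (0 : ℝ) ≤ (J : ℝ) + 1 := by positivity
  have hl0 : 0 ≤ 3 * Real.log n := hJ0.trans hL
  have hB1 : (0 : ℝ) ≤ max 1 S.B := le_trans zero_le_one (le_max_left _ _)
  calc _ ≤ (T.card : ℝ) := by exact_mod_cast hnc
    _ ≤ _ := hTc
    _ = ((J : ℝ) + 1) ^ h * ((h : ℝ) ^ h * (2 * (h : ℝ) * q) ^ h) *
        ((max 1 S.B) ^ h * (((J : ℝ) + 1) ^ S.E) ^ h) := by
        rw [hPc, mul_pow]
        push_cast
        ring
    _ ≤ (3 * Real.log n) ^ h * ((h : ℝ) ^ h * (2 * (h : ℝ) * q) ^ h) *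
        ((max 1 S.B) ^ h * ((3 * Real.log n) ^ S.E) ^ h) := by
        gcongr
    _ = _ := by
        have e1 : (3 * Real.log n) ^ h = 3 ^ h * Real.log n ^ h := mul_pow _ _ _
        have e2 : ((3 * Real.log n) ^ S.E) ^ h = (3 ^ S.E) ^ h * Real.log n ^ (S.E * h) := by
          rw [mul_pow, mul_pow, pow_mul (Real.log n)]
        rw [e1, e2, pow_add]
        ring

end Pool.Agent.T2h22.TB
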