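import Pool.Agent.T2h22.TB.Stm

set_option autoImplicit false

namespace Pool.Agent.T2h22.TB

theorem t_VA : T_VA := by
  intro h p hp S
  have hq : 0 < p ^ h := by positivity
  refine ⟨?_, ?_⟩
  · intro j
    induction j with
    | zero => intro i m; rw [S.v0]; simp
    | succ j ih =>
      intro i m
      rw [S.vs]
      unfold nx
      have h1 := ih i (m % p ^ j)
      have h2 : (p ^ i * (m / p ^ j) + S.X j i (m % p ^ j)) % p ^ h < p ^ h := Nat.mod_lt _ hq
      have h3 : (p ^ h) ^ j * ((p ^ i * (m / p ^ j) + S.X j i (m % p ^ j)) % p ^ h + 1) ≤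
          (p ^ h) ^ j * p ^ h := Nat.mul_le_mul_left _ h2
      rw [pow_succ]
      rw [mul_add, mul_one] at h3
      omega
  · intro j l i m hjl
    induction l, hjl using Nat.le_induction generalizing m with
    | base =>
      intro hm
      rw [Nat.mod_eq_of_lt hm]
    | succ l hl ih =>
      intro _
      rw [S.vs]
      unfold nx
      have h1 := ih (m % p ^ l) (Nat.mod_lt _ (by positivity))
      have h2 : m % p ^ l % p ^ j = m % p ^ j := Nat.mod_mod_of_dvd _ (pow_dvd_pow p hl)
      rw [h2] at h1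
      have h3 : (p ^ h) ^ l * ((p ^ i * (m / p ^ l) + S.X l i (m % p ^ l)) % p ^ h) ≡ 0
          [MOD (p ^ h) ^ j] := by
        rw [Nat.modEq_zero_iff_dvd]
        exact Dvd.dvd.mul_right (pow_dvd_pow _ hl) _
      simpa using Nat.ModEq.add h1 h3

end Pool.Agent.T2h22.TB
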